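import Mathlib

/-!
Specialization of elements of a field at a homomorphism from a subring to another field.
-/

set_option autoImplicit false

namespace Pool.Agent.X321.DG

variable {R F k : Type*} [CommRing R] [Field F] [Field k]

/-- `r` is a quotient `ι p / ι q` with `π q ≠ 0` and `c = π p / π q`. -/
def Ev (ι : R →+* F) (π : R →+* k) (r : F) (c : k) : Prop :=
  ∃ p q : R, π q ≠ 0 ∧ r * ι q = ι p ∧ c * π q = π p

namespace Ev

variable {ι : R →+* F} {π : R →+* k} {r s : F} {c e : k}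

theorem of (p : R) : Ev ι π (ι p) (π p) := ⟨p, 1, by simp, by simp, by simp⟩

theorem one : Ev ι π 1 1 := by
  have := of (ι := ι) (π := π) 1
  simpa using this

theorem nat (n : ℕ) [n.AtLeastTwo] : Ev ι π (OfNat.ofNat n) (OfNat.ofNat n) := by
  have := of (ι := ι) (π := π) (OfNat.ofNat n)
  rwa [map_ofNat, map_ofNat] at this

theorem add (hr : Ev ι π r c) (hs : Ev ι π s e) : Ev ι π (r + s) (c + e) := by
  obtain ⟨p, q, hq, h1, h2⟩ := hr
  obtain ⟨p', q', hq', h1', h2'⟩ := hs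
  refine ⟨p * q' + p' * q, q * q', ?_, ?_, ?_⟩
  · rw [map_mul]; exact mul_ne_zero hq hq'
  · rw [map_mul, map_add, map_mul, map_mul, ← h1, ← h1']; ring
  · rw [map_mul, map_add, map_mul, map_mul, ← h2, ← h2']; ring

theorem mul (hr : Ev ι π r c) (hs : Ev ι π s e) : Ev ι π (r * s) (c * e) := by
  obtain ⟨p, q, hq, h1, h2⟩ := hr
  obtain ⟨p', q', hq', h1', h2'⟩ := hs
  refine ⟨p * p', q * q', ?_, ?_, ?_⟩
  · rw [map_mul]; exact mul_ne_zero hq hq'
  · rw [map_mul, map_mul, ← h1, ← h1']; ring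
  · rw [map_mul, map_mul, ← h2, ← h2']; ring

theorem neg (hr : Ev ι π r c) : Ev ι π (-r) (-c) := by
  obtain ⟨p, q, hq, h1, h2⟩ := hr
  refine ⟨-p, q, hq, ?_, ?_⟩
  · rw [map_neg, ← h1]; ring
  · rw [map_neg, ← h2]; ring

theorem sub (hr : Ev ι π r c) (hs : Ev ι π s e) : Ev ι π (r - s) (c - e) := by
  rw [sub_eq_add_neg, sub_eq_add_neg]
  exact hr.add hs.neg

theorem ne_zero (hι : Function.Injective ι) (hr : Ev ι π r c) (hc : c ≠ 0) : r ≠ 0 := by
  obtain ⟨p, q, hq, h1, h2⟩ := hr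
  rintro rfl
  rw [zero_mul] at h1
  have hp : p = 0 := hι (by rw [← h1, map_zero])
  rw [hp, map_zero] at h2
  exact (mul_ne_zero hc hq) h2

theorem inv (hι : Function.Injective ι) (hr : Ev ι π r c) (hc : c ≠ 0) : Ev ι π r⁻¹ c⁻¹ := by
  have hr0 := hr.ne_zero hι hc
  obtain ⟨p, q, hq, h1, h2⟩ := hr
  have hp : π p ≠ 0 := by rw [← h2]; exact mul_ne_zero hc hq
  refine ⟨q, p, hp, ?_, ?_⟩
  · rw [← h1, inv_mul_cancel_left₀ hr0]
  · rw [← h2, inv_mul_cancel_left₀ hc]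

theorem div (hι : Function.Injective ι) (hr : Ev ι π r c) (hs : Ev ι π s e) (he : e ≠ 0) :
    Ev ι π (r / s) (c / e) := by
  rw [div_eq_mul_inv, div_eq_mul_inv]
  exact hr.mul (hs.inv hι he)

theorem pow (hr : Ev ι π r c) (n : ℕ) : Ev ι π (r ^ n) (c ^ n) := by
  induction n with
  | zero => simpa using one (ι := ι) (π := π)
  | succ n ih => rw [pow_succ, pow_succ]; exact ih.mul hr

end Ev

end Pool.Agent.X321.DG
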