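import Mathlib
import Pool.Agent.X321.DG.Ev

/-!
The formulas of the map, and its orbits on the cuspidal cubic.
-/

set_option autoImplicit false

namespace Pool.Agent.X321.DG

section Formulas

variable {L : Type*} [Field L]

/-- the second coordinate of the second point, minus one -/
def rho (u v m : L) : L := 2 * ((v ^ 3 - 1) - m * (u ^ 3 - 1)) / (m ^ 2 * (u ^ 3 - 1) - (v ^ 3 - 1))
/-- the twist -/
def kap (u v m : L) : L := (u ^ 3 - 1) / (rho u v m * (rho u v m + 2))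
/-- slope -/
def lam (u v m : L) : L := rho u v m / (u - 1)
/-- first coordinate of the sum of the second and the first point -/
def stU (u v m : L) : L := kap u v m * lam u v m ^ 2 - u - 1
/-- second coordinate of the sum of the second and the first point -/
def stR (u v m : L) : L := -(1 + lam u v m * (stU u v m - 1))
/-- slope -/
def mu (u v m : L) : L := (m * rho u v m - rho u v m) / (v - u)
/-- first coordinate of the sum of the third and the second point -/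
def stV (u v m : L) : L := kap u v m * mu u v m ^ 2 - v - u
/-- second coordinate of the sum of the third and the second point -/
def stS (u v m : L) : L := -((1 + rho u v m) + mu u v m * (stV u v m - u))
/-- the third coordinate of the image -/
def stM (u v m : L) : L := (stS u v m - 1) / (stR u v m - 1)

/-- one step of the map -/
def st (a : Fin 3 → L) : Fin 3 → L :=
  ![stU (a 0) (a 1) (a 2), stV (a 0) (a 1) (a 2), stM (a 0) (a 1) (a 2)]

/-- nondegenerate triples -/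
structure ND (u v m : L) : Prop where
  u0 : u ≠ 0
  v0 : v ≠ 0
  al : u ^ 3 - 1 ≠ 0
  d1 : m ^ 2 * (u ^ 3 - 1) - (v ^ 3 - 1) ≠ 0
  d2 : rho u v m ≠ 0
  d3 : rho u v m + 2 ≠ 0
  d4 : u - 1 ≠ 0
  d5 : v - u ≠ 0
  d6 : stR u v m - 1 ≠ 0
  d7 : stR u v m + 1 ≠ 0
  d8 : stS u v m - 1 ≠ 0
  d9 : stS u v m - stR u v m ≠ 0

theorem ND.kap_ne {u v m : L} (h : ND u v m) : kap u v m ≠ 0 :=
  div_ne_zero h.al (mul_ne_zero h.d2 h.d3)

/-- the state determines the curve and the points -/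
theorem state_eq [CharZero L] {κ u v r s : L} (hκ : κ ≠ 0) (h1 : κ * (r ^ 2 - 1) = u ^ 3 - 1)
    (h2 : κ * (s ^ 2 - 1) = v ^ 3 - 1) (hr : r - 1 ≠ 0) (hs : s - 1 ≠ 0) (hsr : s - r ≠ 0) :
    ((s - 1) / (r - 1)) ^ 2 * (u ^ 3 - 1) - (v ^ 3 - 1) ≠ 0 ∧
      rho u v ((s - 1) / (r - 1)) = r - 1 := by
  have e1 : ((s - 1) / (r - 1)) ^ 2 * (u ^ 3 - 1) - (v ^ 3 - 1) =
      2 * κ * (s - 1) * (s - r) / (r - 1) := by
    rw [← h1, ← h2]
    field_simp
    ring
  have e2 : 2 * κ * (s - 1) * (s - r) / (r - 1) ≠ 0 :=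
    div_ne_zero (mul_ne_zero (mul_ne_zero (mul_ne_zero two_ne_zero hκ) hs) hsr) hr
  refine ⟨by rw [e1]; exact e2, ?_⟩
  unfold rho
  rw [e1, div_eq_iff e2, ← h1, ← h2]
  field_simp
  ring

theorem kap_eq {κ u r : L} (h1 : κ * (r ^ 2 - 1) = u ^ 3 - 1) (hr : r - 1 ≠ 0) (hr' : r + 1 ≠ 0) :
    (u ^ 3 - 1) / ((r - 1) * (r - 1 + 2)) = κ := by
  have : r - 1 + 2 = r + 1 := by ring
  rw [this, ← h1, div_eq_iff (mul_ne_zero hr hr')]
  ring

end Formulas

section EvS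

variable {R F k : Type*} [CommRing R] [Field F] [Field k] {ι : R →+* F} {π : R →+* k}
  {u v m : F} {u' v' m' : k}

theorem Ev.rho (hι : Function.Injective ι) (hu : Ev ι π u u') (hv : Ev ι π v v')
    (hm : Ev ι π m m') (h : ND u' v' m') : Ev ι π (DG.rho u v m) (DG.rho u' v' m') :=
  (((Ev.nat 2).mul (((hv.pow 3).sub Ev.one).sub (hm.mul ((hu.pow 3).sub Ev.one)))).div hι
    (((hm.pow 2).mul ((hu.pow 3).sub Ev.one)).sub ((hv.pow 3).sub Ev.one)) h.d1)

theorem Ev.kap (hι : Function.Injective ι) (hu : Ev ι π u u') (hv : Ev ι π v v')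
    (hm : Ev ι π m m') (h : ND u' v' m') : Ev ι π (DG.kap u v m) (DG.kap u' v' m') :=
  ((hu.pow 3).sub Ev.one).div hι
    ((Ev.rho hι hu hv hm h).mul ((Ev.rho hι hu hv hm h).add (Ev.nat 2))) (mul_ne_zero h.d2 h.d3)

theorem Ev.lam (hι : Function.Injective ι) (hu : Ev ι π u u') (hv : Ev ι π v v')
    (hm : Ev ι π m m') (h : ND u' v' m') : Ev ι π (DG.lam u v m) (DG.lam u' v' m') :=
  (Ev.rho hι hu hv hm h).div hι (hu.sub Ev.one) h.d4

theorem Ev.stU (hι : Function.Injective ι) (hu : Ev ι π u u') (hv : Ev ι π v v')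
    (hm : Ev ι π m m') (h : ND u' v' m') : Ev ι π (DG.stU u v m) (DG.stU u' v' m') :=
  (((Ev.kap hι hu hv hm h).mul ((Ev.lam hι hu hv hm h).pow 2)).sub hu).sub Ev.one

theorem Ev.stR (hι : Function.Injective ι) (hu : Ev ι π u u') (hv : Ev ι π v v')
    (hm : Ev ι π m m') (h : ND u' v' m') : Ev ι π (DG.stR u v m) (DG.stR u' v' m') :=
  (Ev.one.add ((Ev.lam hι hu hv hm h).mul ((Ev.stU hι hu hv hm h).sub Ev.one))).neg

theorem Ev.mu (hι : Function.Injective ι) (hu : Ev ι π u u') (hv : Ev ι π v v')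
    (hm : Ev ι π m m') (h : ND u' v' m') : Ev ι π (DG.mu u v m) (DG.mu u' v' m') :=
  (((hm.mul (Ev.rho hι hu hv hm h)).sub (Ev.rho hι hu hv hm h))).div hι (hv.sub hu) h.d5

theorem Ev.stV (hι : Function.Injective ι) (hu : Ev ι π u u') (hv : Ev ι π v v')
    (hm : Ev ι π m m') (h : ND u' v' m') : Ev ι π (DG.stV u v m) (DG.stV u' v' m') :=
  (((Ev.kap hι hu hv hm h).mul ((Ev.mu hι hu hv hm h).pow 2)).sub hv).sub hu

theorem Ev.stS (hι : Function.Injective ι) (hu : Ev ι π u u') (hv : Ev ι π v v')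
    (hm : Ev ι π m m') (h : ND u' v' m') : Ev ι π (DG.stS u v m) (DG.stS u' v' m') :=
  (((Ev.one.add (Ev.rho hι hu hv hm h)).add
    ((Ev.mu hι hu hv hm h).mul ((Ev.stV hι hu hv hm h).sub hu)))).neg

theorem Ev.stM (hι : Function.Injective ι) (hu : Ev ι π u u') (hv : Ev ι π v v')
    (hm : Ev ι π m m') (h : ND u' v' m') : Ev ι π (DG.stM u v m) (DG.stM u' v' m') :=
  ((Ev.stS hι hu hv hm h).sub Ev.one).div hι ((Ev.stR hι hu hv hm h).sub Ev.one) h.d6

theorem Ev.nd (hι : Function.Injective ι) (hu : Ev ι π u u') (hv : Ev ι π v v')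
    (hm : Ev ι π m m') (h : ND u' v' m') : ND u v m where
  u0 := hu.ne_zero hι h.u0
  v0 := hv.ne_zero hι h.v0
  al := ((hu.pow 3).sub Ev.one).ne_zero hι h.al
  d1 := (((hm.pow 2).mul ((hu.pow 3).sub Ev.one)).sub ((hv.pow 3).sub Ev.one)).ne_zero hι h.d1
  d2 := (Ev.rho hι hu hv hm h).ne_zero hι h.d2
  d3 := ((Ev.rho hι hu hv hm h).add (Ev.nat 2)).ne_zero hι h.d3
  d4 := (hu.sub Ev.one).ne_zero hι h.d4
  d5 := (hv.sub hu).ne_zero hι h.d5
  d6 := ((Ev.stR hι hu hv hm h).sub Ev.one).ne_zero hι h.d6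
  d7 := ((Ev.stR hι hu hv hm h).add Ev.one).ne_zero hι h.d7
  d8 := ((Ev.stS hι hu hv hm h).sub Ev.one).ne_zero hι h.d8
  d9 := ((Ev.stS hι hu hv hm h).sub (Ev.stR hι hu hv hm h)).ne_zero hι h.d9

/-- all coordinates specialize -/
def EvS (ι : R →+* F) (π : R →+* k) (a : Fin 3 → F) (b : Fin 3 → k) : Prop :=
  ∀ i, Ev ι π (a i) (b i)

/-- nondegenerate states -/
def NDS {L : Type*} [Field L] (a : Fin 3 → L) : Prop := ND (a 0) (a 1) (a 2)

theorem EvS.nd (hι : Function.Injective ι) {a : Fin 3 → F} {b : Fin 3 → k} (h : EvS ι π a b)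
    (hb : NDS b) : NDS a := Ev.nd hι (h 0) (h 1) (h 2) hb

theorem EvS.st (hι : Function.Injective ι) {a : Fin 3 → F} {b : Fin 3 → k} (h : EvS ι π a b)
    (hb : NDS b) : EvS ι π (DG.st a) (DG.st b) := by
  intro i
  fin_cases i
  · exact Ev.stU hι (h 0) (h 1) (h 2) hb
  · exact Ev.stV hι (h 0) (h 1) (h 2) hb
  · exact Ev.stM hι (h 0) (h 1) (h 2) hb

end EvS

/-! ### The cuspidal cubic -/

section Cusp

variable {k : Type*} [Field k] [CharZero k]

/-- conditions on the parameters -/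
structure CND (z w : k) : Prop where
  z0 : z ≠ 0
  w0 : w ≠ 0
  z1 : z ^ 3 - 1 ≠ 0
  z2 : z ^ 3 + 1 ≠ 0
  w1 : w ^ 3 - 1 ≠ 0
  wz3 : w ^ 3 - z ^ 3 ≠ 0
  wz2 : w ^ 2 - z ^ 2 ≠ 0

/-- the state of the points with parameters `1, z, w` on the cuspidal cubic -/
def cusp (z w : k) : Fin 3 → k :=
  ![1 / z ^ 2, 1 / w ^ 2, (1 / w ^ 3 - 1) / (1 / z ^ 3 - 1)]

theorem CND.all {z w : k} (h : CND z w) (h' : CND (z + 1) (w + z)) :
    NDS (cusp z w) ∧ st (cusp z w) = cusp (z + 1) (w + z) := by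
  obtain ⟨z0, w0, z1, z2, w1, wz3, wz2⟩ := h
  obtain ⟨z0', w0', z1', z2', w1', wz3', -⟩ := h'
  have r1 : (1 / z ^ 3 - 1 : k) ≠ 0 := by
    have : (1 / z ^ 3 - 1 : k) = -(z ^ 3 - 1) / z ^ 3 := by field_simp; ring
    rw [this]
    exact div_ne_zero (neg_ne_zero.2 z1) (pow_ne_zero _ z0)
  have r2 : (1 / z ^ 3 + 1 : k) ≠ 0 := by
    have : (1 / z ^ 3 + 1 : k) = (z ^ 3 + 1) / z ^ 3 := by field_simp; ring
    rw [this]
    exact div_ne_zero z2 (pow_ne_zero _ z0)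
  have s1 : (1 / w ^ 3 - 1 : k) ≠ 0 := by
    have : (1 / w ^ 3 - 1 : k) = -(w ^ 3 - 1) / w ^ 3 := by field_simp; ring
    rw [this]
    exact div_ne_zero (neg_ne_zero.2 w1) (pow_ne_zero _ w0)
  have sr : (1 / w ^ 3 - 1 / z ^ 3 : k) ≠ 0 := by
    have : (1 / w ^ 3 - 1 / z ^ 3 : k) = -(w ^ 3 - z ^ 3) / (w ^ 3 * z ^ 3) := by
      field_simp; ring
    rw [this]
    exact div_ne_zero (neg_ne_zero.2 wz3) (mul_ne_zero (pow_ne_zero _ w0) (pow_ne_zero _ z0))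
  have hz1 : z - 1 ≠ 0 := fun h => z1 (by linear_combination (z ^ 2 + z + 1) * h)
  have e1 : (1 : k) * ((1 / z ^ 3) ^ 2 - 1) = (1 / z ^ 2) ^ 3 - 1 := by
    field_simp
  have e2 : (1 : k) * ((1 / w ^ 3) ^ 2 - 1) = (1 / w ^ 2) ^ 3 - 1 := by
    field_simp
  obtain ⟨d1, hrho⟩ := state_eq one_ne_zero e1 e2 r1 s1 sr
  have hkap : kap (1 / z ^ 2) (1 / w ^ 2) ((1 / w ^ 3 - 1) / (1 / z ^ 3 - 1)) = (1 : k) := by
    unfold kap
    rw [hrho]
    exact kap_eq e1 r1 r2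
  have al : (1 / z ^ 2 : k) ^ 3 - 1 ≠ 0 := by
    have : (1 / z ^ 2 : k) ^ 3 - 1 = (1 / z ^ 3 - 1) * (1 / z ^ 3 + 1) := by field_simp; ring
    rw [this]
    exact mul_ne_zero r1 r2
  have d4 : (1 / z ^ 2 : k) - 1 ≠ 0 := by
    intro h
    apply al
    have : (1 / z ^ 2 : k) = 1 := sub_eq_zero.1 h
    rw [this]
    ring
  have d5 : (1 / w ^ 2 - 1 / z ^ 2 : k) ≠ 0 := by
    have : (1 / w ^ 2 - 1 / z ^ 2 : k) = -(w ^ 2 - z ^ 2) / (w ^ 2 * z ^ 2) := by
      field_simp; ring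
    rw [this]
    exact div_ne_zero (neg_ne_zero.2 wz2) (mul_ne_zero (pow_ne_zero _ w0) (pow_ne_zero _ z0))
  have hlam : lam (1 / z ^ 2) (1 / w ^ 2) ((1 / w ^ 3 - 1) / (1 / z ^ 3 - 1)) =
      (z ^ 2 + z + 1) / (z * (z + 1)) := by
    unfold lam
    rw [hrho, div_eq_div_iff d4 (mul_ne_zero z0 z0')]
    field_simp
    ring
  have hU : stU (1 / z ^ 2) (1 / w ^ 2) ((1 / w ^ 3 - 1) / (1 / z ^ 3 - 1)) =
      1 / (z + 1) ^ 2 := by
    unfold stU
    rw [hkap, hlam]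
    field_simp
    ring
  have hR : stR (1 / z ^ 2) (1 / w ^ 2) ((1 / w ^ 3 - 1) / (1 / z ^ 3 - 1)) =
      1 / (z + 1) ^ 3 := by
    unfold stR
    rw [hU, hlam]
    field_simp
    ring
  have hzw : w - z ≠ 0 := fun h => wz2 (by linear_combination (w + z) * h)
  have hmu : mu (1 / z ^ 2) (1 / w ^ 2) ((1 / w ^ 3 - 1) / (1 / z ^ 3 - 1)) =
      (z ^ 2 + z * w + w ^ 2) / (z * w * (w + z)) := by
    unfold mu
    rw [hrho, div_mul_cancel₀ _ r1, div_eq_div_iff d5 (mul_ne_zero (mul_ne_zero z0 w0) w0')]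
    field_simp
    ring
  have hV : stV (1 / z ^ 2) (1 / w ^ 2) ((1 / w ^ 3 - 1) / (1 / z ^ 3 - 1)) =
      1 / (w + z) ^ 2 := by
    unfold stV
    rw [hkap, hmu]
    field_simp
    ring
  have hS : stS (1 / z ^ 2) (1 / w ^ 2) ((1 / w ^ 3 - 1) / (1 / z ^ 3 - 1)) =
      1 / (w + z) ^ 3 := by
    unfold stS
    rw [hV, hmu, hrho]
    field_simp
    ring
  refine ⟨⟨?_, ?_, al, d1, ?_, ?_, d4, d5, ?_, ?_, ?_, ?_⟩, ?_⟩
  · exact div_ne_zero one_ne_zero (pow_ne_zero _ z0)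
  · exact div_ne_zero one_ne_zero (pow_ne_zero _ w0)
  · show rho (1 / z ^ 2) (1 / w ^ 2) ((1 / w ^ 3 - 1) / (1 / z ^ 3 - 1)) ≠ 0
    rw [hrho]; exact r1
  · show rho (1 / z ^ 2) (1 / w ^ 2) ((1 / w ^ 3 - 1) / (1 / z ^ 3 - 1)) + 2 ≠ 0
    rw [hrho]
    have : (1 / z ^ 3 - 1 + 2 : k) = 1 / z ^ 3 + 1 := by ring
    rw [this]; exact r2
  · show stR (1 / z ^ 2) (1 / w ^ 2) ((1 / w ^ 3 - 1) / (1 / z ^ 3 - 1)) - 1 ≠ 0
    rw [hR]
    have : (1 / (z + 1) ^ 3 - 1 : k) = -((z + 1) ^ 3 - 1) / (z + 1) ^ 3 := by field_simp; ring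
    rw [this]
    exact div_ne_zero (neg_ne_zero.2 z1') (pow_ne_zero _ z0')
  · show stR (1 / z ^ 2) (1 / w ^ 2) ((1 / w ^ 3 - 1) / (1 / z ^ 3 - 1)) + 1 ≠ 0
    rw [hR]
    have : (1 / (z + 1) ^ 3 + 1 : k) = ((z + 1) ^ 3 + 1) / (z + 1) ^ 3 := by field_simp; ring
    rw [this]
    exact div_ne_zero z2' (pow_ne_zero _ z0')
  · show stS (1 / z ^ 2) (1 / w ^ 2) ((1 / w ^ 3 - 1) / (1 / z ^ 3 - 1)) - 1 ≠ 0
    rw [hS]
    have : (1 / (w + z) ^ 3 - 1 : k) = -((w + z) ^ 3 - 1) / (w + z) ^ 3 := by field_simp; ring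
    rw [this]
    exact div_ne_zero (neg_ne_zero.2 w1') (pow_ne_zero _ w0')
  · show stS (1 / z ^ 2) (1 / w ^ 2) ((1 / w ^ 3 - 1) / (1 / z ^ 3 - 1)) -
      stR (1 / z ^ 2) (1 / w ^ 2) ((1 / w ^ 3 - 1) / (1 / z ^ 3 - 1)) ≠ 0
    rw [hS, hR]
    have : (1 / (w + z) ^ 3 - 1 / (z + 1) ^ 3 : k) =
        -((w + z) ^ 3 - (z + 1) ^ 3) / ((w + z) ^ 3 * (z + 1) ^ 3) := by field_simp; ring
    rw [this]
    exact div_ne_zero (neg_ne_zero.2 wz3') (mul_ne_zero (pow_ne_zero _ w0') (pow_ne_zero _ z0'))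
  · funext i
    fin_cases i
    · exact hU
    · exact hV
    · show stM (1 / z ^ 2) (1 / w ^ 2) ((1 / w ^ 3 - 1) / (1 / z ^ 3 - 1)) =
        (1 / (w + z) ^ 3 - 1) / (1 / (z + 1) ^ 3 - 1)
      unfold stM
      rw [hR, hS]

/-- the orbit on the cuspidal cubic -/
def cb (k : Type*) [Field k] (n : ℕ) : Fin 3 → k := cusp ((2 * n + 1) / 2) ((n : k) ^ 2 / 2)

theorem cnd (n : ℕ) (hn : 1 ≤ n) : CND (((2 * n + 1) / 2 : k)) ((n : k) ^ 2 / 2) := by
  have key : ∀ a b : ℕ, a ≠ b → ((a : k) - b) ≠ 0 := fun a b h =>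
    sub_ne_zero.2 (by exact_mod_cast h)
  have n1 : n ^ 2 ≠ 2 * n + 1 := by
    intro h
    rcases le_or_gt n 2 with h2 | h2
    · interval_cases n <;> omega
    · nlinarith
  constructor
  · have := key (2 * n + 1) 0 (by omega)
    push_cast at this
    intro h
    apply this
    linear_combination 2 * h
  · have : (n : k) ≠ 0 := by exact_mod_cast (by omega : n ≠ 0)
    exact div_ne_zero (pow_ne_zero _ this) two_ne_zero
  · have h8 : (2 * n + 1) ^ 3 ≠ 8 := by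
      intro h
      have h2 : Odd ((2 * n + 1) ^ 3) := (odd_two_mul_add_one n).pow
      rw [h] at h2
      exact (by decide : ¬ Odd 8) h2
    have := key _ _ h8
    push_cast at this
    intro h
    apply this
    linear_combination 8 * h
  · have := key ((2 * n + 1) ^ 3 + 8) 0 (by positivity)
    push_cast at this
    intro h
    apply this
    linear_combination 8 * h
  · have h8 : n ^ 6 ≠ 8 := by
      intro h
      rcases le_or_gt n 1 with h2 | h2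
      · have : n = 1 := by omega
        subst this
        omega
      · have := Nat.pow_le_pow_left (show 2 ≤ n by omega) 6
        omega
    have := key _ _ h8
    push_cast at this
    intro h
    apply this
    linear_combination 8 * h
  · have h8 : n ^ 6 ≠ (2 * n + 1) ^ 3 := by
      intro h
      apply n1
      have : (n ^ 2) ^ 3 = (2 * n + 1) ^ 3 := by rw [← h]; ring
      exact Nat.pow_left_injective (by norm_num : 3 ≠ 0) this
    have := key _ _ h8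
    push_cast at this
    intro h
    apply this
    linear_combination 8 * h
  · have h8 : n ^ 4 ≠ (2 * n + 1) ^ 2 := by
      intro h
      apply n1
      have : (n ^ 2) ^ 2 = (2 * n + 1) ^ 2 := by rw [← h]; ring
      exact Nat.pow_left_injective (by norm_num : 2 ≠ 0) this
    have := key _ _ h8
    push_cast at this
    intro h
    apply this
    linear_combination 4 * h

theorem cb_all (n : ℕ) (hn : 1 ≤ n) : NDS (cb k n) ∧ st (cb k n) = cb k (n + 1) := by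
  have h1 := cnd (k := k) n hn
  have h2 := cnd (k := k) (n + 1) (by omega)
  have e1 : ((2 * ((n + 1 : ℕ) : k) + 1) / 2 : k) = (2 * n + 1) / 2 + 1 := by
    push_cast; ring
  have e2 : (((n + 1 : ℕ) : k) ^ 2 / 2 : k) = (n : k) ^ 2 / 2 + (2 * n + 1) / 2 := by
    push_cast; ring
  rw [e1, e2] at h2
  obtain ⟨h3, h4⟩ := h1.all h2
  refine ⟨h3, ?_⟩
  unfold cb
  rw [h4, e1, e2]

end Cusp

theorem orbit {R F k : Type*} [CommRing R] [Field F] [Field k] [CharZero k] {ι : R →+* F}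
    {π : R →+* k} (hι : Function.Injective ι) {a : Fin 3 → F} {n₀ : ℕ} (hn₀ : 1 ≤ n₀)
    (h : EvS ι π a (cb k n₀)) (n : ℕ) :
    EvS ι π (st^[n] a) (cb k (n₀ + n)) ∧ NDS (st^[n] a) := by
  have h1 : ∀ n, EvS ι π (st^[n] a) (cb k (n₀ + n)) := by
    intro n
    induction n with
    | zero => simpa using h
    | succ n ih =>
      rw [Function.iterate_succ_apply']
      obtain ⟨h2, h3⟩ := cb_all (k := k) (n₀ + n) (by omega)
      rw [← add_assoc, ← h3]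
      exact ih.st hι h2
  exact ⟨h1 n, (h1 n).nd hι (cb_all (k := k) (n₀ + n) (by omega)).1⟩

end Pool.Agent.X321.DG
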