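import Mathlib
import Pool.Agent.X321.DG.Step

/-!
The map and the group law on the curves `y ^ 2 = x ^ 3 + c`.
-/

set_option autoImplicit false

namespace Pool.Agent.X321.DG

open WeierstrassCurve WeierstrassCurve.Affine

variable {L : Type*} [Field L] [DecidableEq L]

/-- the curve `y ^ 2 = x ^ 3 + c` -/
def Wc (c : L) : WeierstrassCurve L := ⟨0, 0, 0, 0, c⟩

/-- its points -/
abbrev Pt (c : L) : Type _ := (Wc c).toAffine.Point

omit [DecidableEq L] in
theorem W_eq {c x y : L} (h : (Wc c).toAffine.Nonsingular x y) : y ^ 2 = x ^ 3 + c := by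
  have := (WeierstrassCurve.Affine.equation_iff x y).mp h.1
  simpa [Wc] using this

omit [DecidableEq L] in
theorem W_nonsing [CharZero L] {c x y : L} (h : y ^ 2 = x ^ 3 + c) (h0 : x ≠ 0 ∨ y ≠ 0) :
    (Wc c).toAffine.Nonsingular x y := by
  rw [WeierstrassCurve.Affine.nonsingular_iff, WeierstrassCurve.Affine.equation_iff]
  refine ⟨by simpa [Wc] using h, ?_⟩
  simp only [Wc, WeierstrassCurve.toAffine]
  rcases h0 with h0 | h0
  · left
    intro h1
    have h2 : (3 : L) * x ^ 2 = 0 := by linear_combination -h1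
    exact (mul_ne_zero three_ne_zero (pow_ne_zero _ h0)) h2
  · right
    intro h1
    have h2 : (2 : L) * y = 0 := by linear_combination h1
    exact (mul_ne_zero two_ne_zero h0) h2

omit [DecidableEq L] in
theorem negY_eq (c x y : L) : (Wc c).toAffine.negY x y = -y := by
  simp [WeierstrassCurve.Affine.negY, Wc]

theorem add_ne {c x y x' y' : L} (h : (Wc c).toAffine.Nonsingular x y)
    (h' : (Wc c).toAffine.Nonsingular x' y') (hx : x ≠ x') :
    ∃ (X Y : L) (hn : (Wc c).toAffine.Nonsingular X Y),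
      Point.some x y h + Point.some x' y' h' = Point.some X Y hn ∧
      X = ((y - y') / (x - x')) ^ 2 - x - x' ∧
      Y = -(y + (y - y') / (x - x') * (X - x)) := by
  refine ⟨_, _, _, Point.add_of_X_ne hx, ?_, ?_⟩
  · rw [slope_of_X_ne hx]
    simp [WeierstrassCurve.Affine.addX, Wc]
  · rw [slope_of_X_ne hx]
    simp [WeierstrassCurve.Affine.addY, WeierstrassCurve.Affine.negAddY,
      WeierstrassCurve.Affine.addX, Wc, WeierstrassCurve.Affine.negY]
    ring

theorem dbl [CharZero L] {c x y : L} (h : (Wc c).toAffine.Nonsingular x y) (hy : y ≠ 0) :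
    ∃ (X Y : L) (hn : (Wc c).toAffine.Nonsingular X Y),
      Point.some x y h + Point.some x y h = Point.some X Y hn ∧
      X = (3 * x ^ 2 / (2 * y)) ^ 2 - x - x ∧
      Y = -(y + 3 * x ^ 2 / (2 * y) * (X - x)) := by
  have hy' : y ≠ (Wc c).toAffine.negY x y := by
    rw [negY_eq]
    intro h1
    have h2 : (2 : L) * y = 0 := by linear_combination h1
    exact (mul_ne_zero two_ne_zero hy) h2
  have hs : (Wc c).toAffine.slope x x y y = 3 * x ^ 2 / (2 * y) := by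
    rw [slope_of_Y_ne rfl hy', negY_eq]
    simp only [WeierstrassCurve.toAffine, Wc]
    congr 1 <;> ring
  refine ⟨_, _, _, Point.add_self_of_Y_ne hy', ?_, ?_⟩
  · rw [hs]
    simp [WeierstrassCurve.Affine.addX, Wc]
  · rw [hs]
    simp [WeierstrassCurve.Affine.addY, WeierstrassCurve.Affine.negAddY,
      WeierstrassCurve.Affine.addX, Wc, WeierstrassCurve.Affine.negY]
    ring

omit [DecidableEq L] in
theorem neg_pt {c x y : L} (h : (Wc c).toAffine.Nonsingular x y) :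
    ∃ hn : (Wc c).toAffine.Nonsingular x (-y), -Point.some x y h = Point.some x (-y) hn := by
  have e : -Point.some x y h = Point.some x ((Wc c).toAffine.negY x y)
    ((nonsingular_neg ..).mpr h) := Point.neg_some h
  have h2 : (Wc c).toAffine.Nonsingular x (-y) := by
    have := (nonsingular_neg (W' := (Wc c).toAffine) (x := x) (y := y)).mpr h
    rwa [negY_eq] at this
  refine ⟨h2, ?_⟩
  rw [e]
  simp only [negY_eq]

/-- The state `a` represents the points `P`, `Q` (relative to the point `(x₁, y₁)`). -/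
def Rep (c x₁ y₁ : L) (a : Fin 3 → L) (P Q : Pt c) : Prop :=
  kap (a 0) (a 1) (a 2) * x₁ ^ 3 = y₁ ^ 2 ∧
  (∃ h, P = Point.some (x₁ * a 0) (y₁ * (1 + rho (a 0) (a 1) (a 2))) h) ∧
  ∃ h, Q = Point.some (x₁ * a 1) (y₁ * (1 + a 2 * rho (a 0) (a 1) (a 2))) h

omit [DecidableEq L] in
theorem rep_of_points [CharZero L] {c x₁ y₁ X Y X' Y' : L} (h1 : y₁ ^ 2 = x₁ ^ 3 + c)
    (hx1 : x₁ ≠ 0) (hy1 : y₁ ≠ 0)
    (h : (Wc c).toAffine.Nonsingular X Y) (h' : (Wc c).toAffine.Nonsingular X' Y')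
    (hr : Y / y₁ - 1 ≠ 0) (hr' : Y / y₁ + 1 ≠ 0) (hs : Y' / y₁ - 1 ≠ 0)
    (hsr : Y' / y₁ - Y / y₁ ≠ 0) :
    Rep c x₁ y₁ ![X / x₁, X' / x₁, (Y' / y₁ - 1) / (Y / y₁ - 1)] (Point.some X Y h)
      (Point.some X' Y' h') := by
  have e := W_eq h
  have e' := W_eq h'
  have hκ : y₁ ^ 2 / x₁ ^ 3 ≠ 0 := div_ne_zero (pow_ne_zero _ hy1) (pow_ne_zero _ hx1)
  have f1 : y₁ ^ 2 / x₁ ^ 3 * ((Y / y₁) ^ 2 - 1) = (X / x₁) ^ 3 - 1 := by
    field_simp
    linear_combination e - h1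
  have f2 : y₁ ^ 2 / x₁ ^ 3 * ((Y' / y₁) ^ 2 - 1) = (X' / x₁) ^ 3 - 1 := by
    field_simp
    linear_combination e' - h1
  obtain ⟨-, hrho⟩ := state_eq hκ f1 f2 hr hs hsr
  have hk := kap_eq f1 hr hr'
  refine ⟨?_, ?_, ?_⟩
  · show kap (X / x₁) (X' / x₁) ((Y' / y₁ - 1) / (Y / y₁ - 1)) * x₁ ^ 3 = y₁ ^ 2
    unfold kap
    rw [hrho, hk]
    field_simp
  · have e1 : x₁ * (X / x₁) = X := by field_simp
    have e2 : y₁ * (1 + (Y / y₁ - 1)) = Y := by field_simp; ring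
    show ∃ h, Point.some X Y _ = Point.some (x₁ * (X / x₁))
      (y₁ * (1 + rho (X / x₁) (X' / x₁) ((Y' / y₁ - 1) / (Y / y₁ - 1)))) h
    simp only [hrho, e1, e2]
    exact ⟨h, trivial⟩
  · have e1 : x₁ * (X' / x₁) = X' := by field_simp
    have e2 : y₁ * (1 + (Y' / y₁ - 1) / (Y / y₁ - 1) * (Y / y₁ - 1)) = Y' := by
      rw [div_mul_cancel₀ _ hr]
      field_simp
      ring
    show ∃ h, Point.some X' Y' _ = Point.some (x₁ * (X' / x₁))
      (y₁ * (1 + (Y' / y₁ - 1) / (Y / y₁ - 1) *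
        rho (X / x₁) (X' / x₁) ((Y' / y₁ - 1) / (Y / y₁ - 1)))) h
    simp only [hrho, e1, e2]
    exact ⟨h', trivial⟩

/-- one step of the map adds points -/
theorem Rep.st [CharZero L] {c x₁ y₁ : L} (h1 : (Wc c).toAffine.Nonsingular x₁ y₁)
    (hx1 : x₁ ≠ 0) (hy1 : y₁ ≠ 0) {a : Fin 3 → L} {P Q : Pt c} (hR : Rep c x₁ y₁ a P Q)
    (hN : NDS a) : Rep c x₁ y₁ (DG.st a) (P + Point.some x₁ y₁ h1) (Q + P) := by
  obtain ⟨hk, ⟨hP, rfl⟩, ⟨hQ, rfl⟩⟩ := hR
  obtain ⟨u0, v0, al, d1, d2, d3, d4, d5, d6, d7, d8, d9⟩ := hN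
  set u := a 0 with hu
  set v := a 1 with hv
  set m := a 2 with hm
  have hx : x₁ ≠ x₁ * u := by
    intro h
    apply d4
    have : x₁ * (u - 1) = 0 := by linear_combination -h
    exact (mul_eq_zero.1 this).resolve_left hx1
  obtain ⟨X, Y, hn, e, hX, hY⟩ := add_ne h1 hP hx
  have hx' : x₁ * u ≠ x₁ * v := by
    intro h
    apply d5
    have : x₁ * (v - u) = 0 := by linear_combination -h
    exact (mul_eq_zero.1 this).resolve_left hx1
  obtain ⟨X', Y', hn', e', hX', hY'⟩ := add_ne hP hQ hx'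
  have hkk : y₁ ^ 2 / x₁ ^ 2 = kap u v m * x₁ := by
    rw [← hk]; field_simp
  have sl : (y₁ - y₁ * (1 + rho u v m)) / (x₁ - x₁ * u) = y₁ / x₁ * lam u v m := by
    unfold lam
    have h2 : x₁ - x₁ * u = -(x₁ * (u - 1)) := by ring
    rw [h2]
    field_simp
    ring
  have sl' : (y₁ * (1 + rho u v m) - y₁ * (1 + m * rho u v m)) / (x₁ * u - x₁ * v) =
      y₁ / x₁ * mu u v m := by
    unfold mu
    have h2 : x₁ * u - x₁ * v = -(x₁ * (v - u)) := by ring
    rw [h2]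
    field_simp
    ring
  rw [sl] at hX hY
  rw [sl'] at hX' hY'
  have hU : X = x₁ * stU u v m := by
    rw [hX]
    unfold stU
    linear_combination (lam u v m) ^ 2 * hkk
  have hV : X' = x₁ * stV u v m := by
    rw [hX']
    unfold stV
    linear_combination (mu u v m) ^ 2 * hkk
  have hR : Y = y₁ * stR u v m := by
    rw [hY, hU]
    unfold stR
    field_simp
  have hS : Y' = y₁ * stS u v m := by
    rw [hY', hV]
    unfold stS
    field_simp
  have g1 : X / x₁ = stU u v m := by rw [hU]; field_simp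
  have g2 : X' / x₁ = stV u v m := by rw [hV]; field_simp
  have g3 : Y / y₁ = stR u v m := by rw [hR]; field_simp
  have g4 : Y' / y₁ = stS u v m := by rw [hS]; field_simp
  have := rep_of_points (W_eq h1) hx1 hy1 hn hn' (by rw [g3]; exact d6) (by rw [g3]; exact d7)
    (by rw [g4]; exact d8) (by rw [g3, g4]; exact d9)
  rw [add_comm _ (Point.some x₁ y₁ h1), e, add_comm _ (Point.some _ _ hP), e']
  rw [g1, g2, g3, g4] at this
  exact this

theorem Rep.iter [CharZero L] {c x₁ y₁ : L} (h1 : (Wc c).toAffine.Nonsingular x₁ y₁)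
    (hx1 : x₁ ≠ 0) (hy1 : y₁ ≠ 0) {a : Fin 3 → L} {P Q : Pt c} (hR : Rep c x₁ y₁ a P Q)
    (hN : ∀ n, NDS (DG.st^[n] a)) (n : ℕ) :
    Rep c x₁ y₁ (DG.st^[n] a) (P + n • Point.some x₁ y₁ h1)
      (Q + n • P + (n.choose 2) • Point.some x₁ y₁ h1) := by
  induction n with
  | zero => simpa using hR
  | succ n ih =>
    rw [Function.iterate_succ_apply']
    have := ih.st h1 hx1 hy1 (hN n)
    have e1 : P + n • Point.some x₁ y₁ h1 + Point.some x₁ y₁ h1 =
        P + (n + 1) • Point.some x₁ y₁ h1 := by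
      rw [add_smul, one_smul, add_assoc]
    have e2 : Q + n • P + (n.choose 2) • Point.some x₁ y₁ h1 +
        (P + n • Point.some x₁ y₁ h1) =
        Q + (n + 1) • P + ((n + 1).choose 2) • Point.some x₁ y₁ h1 := by
      have hc : (n + 1).choose 2 = n.choose 2 + n := by
        rw [Nat.choose_succ_succ' n 1, Nat.choose_one_right]; ring
      rw [hc, add_smul, add_smul, one_smul]
      abel
    rw [e1, e2] at this
    exact this

omit [DecidableEq L] in
theorem Rep.unique {c x₁ y₁ : L} (hx1 : x₁ ≠ 0) (hy1 : y₁ ≠ 0) {a b : Fin 3 → L} {P Q : Pt c}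
    (ha : Rep c x₁ y₁ a P Q) (hb : Rep c x₁ y₁ b P Q) (h0 : rho (a 0) (a 1) (a 2) ≠ 0) :
    a = b := by
  obtain ⟨-, ⟨h1, e1⟩, ⟨h2, e2⟩⟩ := ha
  obtain ⟨-, ⟨h1', e1'⟩, ⟨h2', e2'⟩⟩ := hb
  rw [e1] at e1'
  rw [e2] at e2'
  injection e1' with p1 p2
  injection e2' with q1 q2
  have r1 := mul_left_cancel₀ hx1 p1
  have r2 := mul_left_cancel₀ hy1 p2
  have r3 := mul_left_cancel₀ hx1 q1
  have r4 := mul_left_cancel₀ hy1 q2
  have r2' : rho (a 0) (a 1) (a 2) = rho (b 0) (b 1) (b 2) := by linear_combination r2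
  rw [← r2'] at r4
  have r5 : a 2 = b 2 := mul_right_cancel₀ h0 (by linear_combination r4)
  funext i
  fin_cases i
  · exact r1
  · exact r3
  · exact r5

omit [DecidableEq L] in
/-- every nondegenerate state represents points -/
theorem rep_of_state [CharZero L] {a : Fin 3 → L} (hN : NDS a)  :
    ∃ (κ : L) (_ : κ = kap (a 0) (a 1) (a 2)) (_ : κ ≠ 0)
      (_ : (Wc (κ ^ 3 * (κ - 1))).toAffine.Nonsingular κ (κ ^ 2))
      (P Q : Pt (κ ^ 3 * (κ - 1))), Rep (κ ^ 3 * (κ - 1)) κ (κ ^ 2) a P Q := by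
  obtain ⟨u0, v0, al, d1, d2, d3, d4, d5, d6, d7, d8, d9⟩ := hN
  set u := a 0 with hu
  set v := a 1 with hv
  set m := a 2 with hm
  have hκ : kap u v m ≠ 0 := div_ne_zero al (mul_ne_zero d2 d3)
  have e1 : kap u v m * (rho u v m * (rho u v m + 2)) = u ^ 3 - 1 := by
    unfold kap
    rw [div_mul_cancel₀ _ (mul_ne_zero d2 d3)]
  have e0 : rho u v m * (m ^ 2 * (u ^ 3 - 1) - (v ^ 3 - 1)) =
      2 * ((v ^ 3 - 1) - m * (u ^ 3 - 1)) := by
    conv_lhs => rw [rho]
    rw [div_mul_cancel₀ _ d1]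
  have e2 : kap u v m * (m * rho u v m * (m * rho u v m + 2)) = v ^ 3 - 1 := by
    have : (rho u v m + 2) * (kap u v m * (m * rho u v m * (m * rho u v m + 2))) =
        (rho u v m + 2) * (v ^ 3 - 1) := by
      linear_combination (m * (m * rho u v m + 2)) * e1 + e0
    exact mul_left_cancel₀ d3 this
  set κ := kap u v m with hκd
  refine ⟨κ, rfl, hκ, W_nonsing (by ring) (Or.inl hκ), ?_⟩
  have n2 : (Wc (κ ^ 3 * (κ - 1))).toAffine.Nonsingular (κ * u) (κ ^ 2 * (1 + rho u v m)) :=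
    W_nonsing (by linear_combination κ ^ 3 * e1) (Or.inl (mul_ne_zero hκ u0))
  have n3 : (Wc (κ ^ 3 * (κ - 1))).toAffine.Nonsingular (κ * v) (κ ^ 2 * (1 + m * rho u v m)) :=
    W_nonsing (by linear_combination κ ^ 3 * e2) (Or.inl (mul_ne_zero hκ v0))
  refine ⟨Point.some _ _ n2, Point.some _ _ n3, ?_, ⟨n2, rfl⟩, ⟨n3, rfl⟩⟩
  show κ * κ ^ 3 = (κ ^ 2) ^ 2
  ring

/-! ### The inverse map -/

section Back

/-- slope -/
def lamb (u v m : L) : L := (rho u v m + 2) / (u - 1)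
/-- first coordinate of the difference of the second and the first point -/
def bU (u v m : L) : L := kap u v m * lamb u v m ^ 2 - u - 1
/-- second coordinate of the difference of the second and the first point -/
def bR (u v m : L) : L := -((1 + rho u v m) + lamb u v m * (bU u v m - u))
/-- slope -/
def nu (u v m : L) : L := ((1 + m * rho u v m) + bR u v m) / (v - bU u v m)
/-- first coordinate -/
def bV (u v m : L) : L := kap u v m * nu u v m ^ 2 - v - bU u v m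
/-- second coordinate -/
def bS (u v m : L) : L := -((1 + m * rho u v m) + nu u v m * (bV u v m - v))
/-- the inverse map -/
def back (a : Fin 3 → L) : Fin 3 → L :=
  ![bU (a 0) (a 1) (a 2), bV (a 0) (a 1) (a 2),
    (bS (a 0) (a 1) (a 2) - 1) / (bR (a 0) (a 1) (a 2) - 1)]

/-- nondegenerate states for the inverse map -/
structure BND (u v m : L) : Prop where
  b1 : v - bU u v m ≠ 0
  b2 : bR u v m - 1 ≠ 0
  b3 : bR u v m + 1 ≠ 0
  b4 : bS u v m - 1 ≠ 0
  b5 : bS u v m - bR u v m ≠ 0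

theorem Rep.back [CharZero L] {c x₁ y₁ : L} (h1 : (Wc c).toAffine.Nonsingular x₁ y₁)
    (hx1 : x₁ ≠ 0) (hy1 : y₁ ≠ 0) {a : Fin 3 → L} {P Q : Pt c} (hR : Rep c x₁ y₁ a P Q)
    (hN : NDS a) (hB : BND (a 0) (a 1) (a 2)) :
    Rep c x₁ y₁ (DG.back a) (P - Point.some x₁ y₁ h1) (Q - (P - Point.some x₁ y₁ h1)) := by
  obtain ⟨hk, ⟨hP, rfl⟩, ⟨hQ, rfl⟩⟩ := hR
  obtain ⟨u0, v0, al, d1, d2, d3, d4, d5, d6, d7, d8, d9⟩ := hN
  obtain ⟨b1, b2, b3, b4, b5⟩ := hB
  set u := a 0 with hu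
  set v := a 1 with hv
  set m := a 2 with hm
  have hx : x₁ * u ≠ x₁ := by
    intro h
    apply d4
    have : x₁ * (u - 1) = 0 := by linear_combination h
    exact (mul_eq_zero.1 this).resolve_left hx1
  obtain ⟨h1n, e1n⟩ := neg_pt h1
  obtain ⟨X, Y, hn, e, hX, hY⟩ := add_ne hP h1n hx
  have hkk : y₁ ^ 2 / x₁ ^ 2 = kap u v m * x₁ := by
    rw [← hk]; field_simp
  have sl : (y₁ * (1 + rho u v m) - -y₁) / (x₁ * u - x₁) = y₁ / x₁ * lamb u v m := by
    unfold lamb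
    have h2 : x₁ * u - x₁ = x₁ * (u - 1) := by ring
    rw [h2]
    field_simp
    ring
  rw [sl] at hX hY
  have hU : X = x₁ * bU u v m := by
    rw [hX]
    unfold bU
    linear_combination (lamb u v m) ^ 2 * hkk
  have hR : Y = y₁ * bR u v m := by
    rw [hY, hU]
    unfold bR
    field_simp
  have hx' : x₁ * v ≠ X := by
    rw [hU]
    intro h
    apply b1
    have : x₁ * (v - bU u v m) = 0 := by linear_combination h
    exact (mul_eq_zero.1 this).resolve_left hx1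
  obtain ⟨h2n, e2n⟩ := neg_pt hn
  obtain ⟨X', Y', hn', e', hX', hY'⟩ := add_ne hQ h2n hx'
  have sl' : (y₁ * (1 + m * rho u v m) - -Y) / (x₁ * v - X) = y₁ / x₁ * nu u v m := by
    unfold nu
    rw [hR, hU]
    have h2 : x₁ * v - x₁ * bU u v m = x₁ * (v - bU u v m) := by ring
    rw [h2]
    field_simp
    ring
  rw [sl'] at hX' hY'
  have hV : X' = x₁ * bV u v m := by
    rw [hX', hU]
    unfold bV
    linear_combination (nu u v m) ^ 2 * hkk
  have hS : Y' = y₁ * bS u v m := by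
    rw [hY', hV]
    unfold bS
    field_simp
  have g1 : X / x₁ = bU u v m := by rw [hU]; field_simp
  have g2 : X' / x₁ = bV u v m := by rw [hV]; field_simp
  have g3 : Y / y₁ = bR u v m := by rw [hR]; field_simp
  have g4 : Y' / y₁ = bS u v m := by rw [hS]; field_simp
  have := rep_of_points (W_eq h1) hx1 hy1 hn hn' (by rw [g3]; exact b2) (by rw [g3]; exact b3)
    (by rw [g4]; exact b4) (by rw [g3, g4]; exact b5)
  rw [g1, g2, g3, g4] at this
  have E1 : Point.some _ _ hP - Point.some x₁ y₁ h1 = Point.some X Y hn := by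
    rw [sub_eq_add_neg, e1n, e]
  rw [E1, sub_eq_add_neg, e2n, e']
  exact this

end Back

section EvBack

variable {R F k : Type*} [CommRing R] [Field F] [Field k] {ι : R →+* F} {π : R →+* k}
  {u v m : F} {u' v' m' : k}

theorem Ev.lamb (hι : Function.Injective ι) (hu : Ev ι π u u') (hv : Ev ι π v v')
    (hm : Ev ι π m m') (h : ND u' v' m') : Ev ι π (DG.lamb u v m) (DG.lamb u' v' m') :=
  ((Ev.rho hι hu hv hm h).add (Ev.nat 2)).div hι (hu.sub Ev.one) h.d4

theorem Ev.bU (hι : Function.Injective ι) (hu : Ev ι π u u') (hv : Ev ι π v v')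
    (hm : Ev ι π m m') (h : ND u' v' m') : Ev ι π (DG.bU u v m) (DG.bU u' v' m') :=
  (((Ev.kap hι hu hv hm h).mul ((Ev.lamb hι hu hv hm h).pow 2)).sub hu).sub Ev.one

theorem Ev.bR (hι : Function.Injective ι) (hu : Ev ι π u u') (hv : Ev ι π v v')
    (hm : Ev ι π m m') (h : ND u' v' m') : Ev ι π (DG.bR u v m) (DG.bR u' v' m') :=
  ((Ev.one.add (Ev.rho hι hu hv hm h)).add
    ((Ev.lamb hι hu hv hm h).mul ((Ev.bU hι hu hv hm h).sub hu))).neg

theorem Ev.nu (hι : Function.Injective ι) (hu : Ev ι π u u') (hv : Ev ι π v v')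
    (hm : Ev ι π m m') (h : ND u' v' m') (hB : BND u' v' m') :
    Ev ι π (DG.nu u v m) (DG.nu u' v' m') :=
  ((Ev.one.add (hm.mul (Ev.rho hι hu hv hm h))).add (Ev.bR hι hu hv hm h)).div hι
    (hv.sub (Ev.bU hι hu hv hm h)) hB.b1

theorem Ev.bV (hι : Function.Injective ι) (hu : Ev ι π u u') (hv : Ev ι π v v')
    (hm : Ev ι π m m') (h : ND u' v' m') (hB : BND u' v' m') :
    Ev ι π (DG.bV u v m) (DG.bV u' v' m') :=
  (((Ev.kap hι hu hv hm h).mul ((Ev.nu hι hu hv hm h hB).pow 2)).sub hv).sub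
    (Ev.bU hι hu hv hm h)

theorem Ev.bS (hι : Function.Injective ι) (hu : Ev ι π u u') (hv : Ev ι π v v')
    (hm : Ev ι π m m') (h : ND u' v' m') (hB : BND u' v' m') :
    Ev ι π (DG.bS u v m) (DG.bS u' v' m') :=
  ((Ev.one.add (hm.mul (Ev.rho hι hu hv hm h))).add
    ((Ev.nu hι hu hv hm h hB).mul ((Ev.bV hι hu hv hm h hB).sub hv))).neg

theorem Ev.bnd (hι : Function.Injective ι) (hu : Ev ι π u u') (hv : Ev ι π v v')
    (hm : Ev ι π m m') (h : ND u' v' m') (hB : BND u' v' m') : BND u v m where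
  b1 := (hv.sub (Ev.bU hι hu hv hm h)).ne_zero hι hB.b1
  b2 := ((Ev.bR hι hu hv hm h).sub Ev.one).ne_zero hι hB.b2
  b3 := ((Ev.bR hι hu hv hm h).add Ev.one).ne_zero hι hB.b3
  b4 := ((Ev.bS hι hu hv hm h hB).sub Ev.one).ne_zero hι hB.b4
  b5 := ((Ev.bS hι hu hv hm h hB).sub (Ev.bR hι hu hv hm h)).ne_zero hι hB.b5

theorem EvS.back (hι : Function.Injective ι) {a : Fin 3 → F} {b : Fin 3 → k} (h : EvS ι π a b)
    (hb : NDS b) (hB : BND (b 0) (b 1) (b 2)) : EvS ι π (DG.back a) (DG.back b) := by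
  intro i
  fin_cases i
  · exact Ev.bU hι (h 0) (h 1) (h 2) hb
  · exact Ev.bV hι (h 0) (h 1) (h 2) hb hB
  · exact ((Ev.bS hι (h 0) (h 1) (h 2) hb hB).sub Ev.one).div hι
      ((Ev.bR hι (h 0) (h 1) (h 2) hb).sub Ev.one) hB.b2

theorem cb_two [CharZero k] : BND (cb k 2 0) (cb k 2 1) (cb k 2 2) ∧ DG.back (cb k 2) = cb k 1 := by
  have c0 : cb k 2 0 = 4 / 25 := by norm_num [cb, cusp]
  have c1 : cb k 2 1 = 1 / 4 := by norm_num [cb, cusp]
  have c2 : cb k 2 2 = 875 / 936 := by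
    show (1 / (((2 : ℕ) : k) ^ 2 / 2) ^ 3 - 1) / (1 / ((2 * ((2 : ℕ) : k) + 1) / 2) ^ 3 - 1) = _
    norm_num
  have hrho : DG.rho (4 / 25) (1 / 4) (875 / 936) = (-117 / 125 : k) := by norm_num [DG.rho]
  have hkap : DG.kap (4 / 25) (1 / 4) (875 / 936) = (1 : k) := by
    rw [DG.kap, hrho]; norm_num
  have hlamb : DG.lamb (4 / 25) (1 / 4) (875 / 936) = (-19 / 15 : k) := by
    rw [DG.lamb, hrho]; norm_num
  have hbU : DG.bU (4 / 25) (1 / 4) (875 / 936) = (4 / 9 : k) := by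
    rw [DG.bU, hkap, hlamb]; norm_num
  have hbR : DG.bR (4 / 25) (1 / 4) (875 / 936) = (8 / 27 : k) := by
    rw [DG.bR, hbU, hlamb, hrho]; norm_num
  have hnu : DG.nu (4 / 25) (1 / 4) (875 / 936) = (-13 / 6 : k) := by
    rw [DG.nu, hbU, hbR, hrho]; norm_num
  have hbV : DG.bV (4 / 25) (1 / 4) (875 / 936) = (4 : k) := by
    rw [DG.bV, hbU, hnu, hkap]; norm_num
  have hbS : DG.bS (4 / 25) (1 / 4) (875 / 936) = (8 : k) := by
    rw [DG.bS, hbV, hnu, hrho]; norm_num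
  constructor
  · rw [c0, c1, c2]
    constructor
    · rw [hbU]; norm_num
    · rw [hbR]; norm_num
    · rw [hbR]; norm_num
    · rw [hbS]; norm_num
    · rw [hbS, hbR]; norm_num
  · unfold DG.back
    rw [c0, c1, c2, hbU, hbV, hbS, hbR]
    funext i
    fin_cases i <;> norm_num [cb, cusp]

/-- nondegenerate states have preimages -/
theorem exists_pre [CharZero k] [CharZero F] (hι : Function.Injective ι) {a : Fin 3 → F}
    (h : EvS ι π a (cb k 2)) : ∃ b : Fin 3 → F, EvS ι π b (cb k 1) ∧ NDS b ∧ DG.st b = a := by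
  classical
  obtain ⟨hB, hb⟩ := cb_two (k := k)
  have hN2 := (cb_all (k := k) 2 (by norm_num)).1
  have hN1 := (cb_all (k := k) 1 le_rfl).1
  have hE := h.back hι hN2 hB
  rw [hb] at hE
  have hNa := h.nd hι hN2
  have hNb := hE.nd hι hN1
  refine ⟨_, hE, hNb, ?_⟩
  obtain ⟨κ, -, hκ, hns, P, Q, hR⟩ := rep_of_state hNa
  have hBa := Ev.bnd hι (h 0) (h 1) (h 2) hN2 hB
  have h2 := (hR.back hns hκ (pow_ne_zero _ hκ) hNa hBa).st hns hκ (pow_ne_zero _ hκ) hNb
  rw [sub_add_cancel, sub_add_cancel] at h2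
  exact (hR.unique hκ (pow_ne_zero _ hκ) h2 hNa.d2).symm

end EvBack

end Pool.Agent.X321.DG
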