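import Mathlib
import Pool.Agent.X321.DG.Curve

/-!
Upper bounds for the degrees of the coordinates of points.
-/

set_option autoImplicit false

namespace Pool.Agent.X321.DG

open MvPolynomial

section Ht

variable {K F : Type*} [Field K] [Field F] {m : ℕ} {ι : MvPolynomial (Fin m) K →+* F}

/-- `r` is a quotient of two polynomials of degree at most `h`. -/
def HtLE (ι : MvPolynomial (Fin m) K →+* F) (r : F) (h : ℕ) : Prop :=
  ∃ p q : MvPolynomial (Fin m) K, q ≠ 0 ∧ r * ι q = ι p ∧ p.totalDegree ≤ h ∧ q.totalDegree ≤ h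

namespace HtLE

variable {r s : F} {h h' : ℕ}

theorem mono (hr : HtLE ι r h) (hh : h ≤ h') : HtLE ι r h' := by
  obtain ⟨p, q, hq, e, h1, h2⟩ := hr
  exact ⟨p, q, hq, e, h1.trans hh, h2.trans hh⟩

theorem one : HtLE ι 1 0 := ⟨1, 1, one_ne_zero, by simp, by simp, by simp⟩

theorem nat (n : ℕ) [n.AtLeastTwo] : HtLE ι (OfNat.ofNat n) 0 := by
  refine ⟨OfNat.ofNat n, 1, one_ne_zero, by rw [map_one, mul_one, map_ofNat], ?_, by simp⟩
  have : (OfNat.ofNat n : MvPolynomial (Fin m) K) = C (OfNat.ofNat n) := by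
    rw [map_ofNat]
  rw [this, totalDegree_C]

theorem add (hr : HtLE ι r h) (hs : HtLE ι s h') : HtLE ι (r + s) (h + h') := by
  obtain ⟨p, q, hq, e, h1, h2⟩ := hr
  obtain ⟨p', q', hq', e', h1', h2'⟩ := hs
  refine ⟨p * q' + p' * q, q * q', mul_ne_zero hq hq', ?_, ?_, ?_⟩
  · rw [map_mul, map_add, map_mul, map_mul, ← e, ← e']; ring
  · refine (totalDegree_add _ _).trans (max_le ?_ ?_)
    · exact (totalDegree_mul _ _).trans (by omega)
    · exact (totalDegree_mul _ _).trans (by omega)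
  · exact (totalDegree_mul _ _).trans (by omega)

theorem mul (hr : HtLE ι r h) (hs : HtLE ι s h') : HtLE ι (r * s) (h + h') := by
  obtain ⟨p, q, hq, e, h1, h2⟩ := hr
  obtain ⟨p', q', hq', e', h1', h2'⟩ := hs
  refine ⟨p * p', q * q', mul_ne_zero hq hq', ?_, ?_, ?_⟩
  · rw [map_mul, map_mul, ← e, ← e']; ring
  · exact (totalDegree_mul _ _).trans (by omega)
  · exact (totalDegree_mul _ _).trans (by omega)

theorem neg (hr : HtLE ι r h) : HtLE ι (-r) h := by
  obtain ⟨p, q, hq, e, h1, h2⟩ := hr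
  refine ⟨-p, q, hq, ?_, by rwa [totalDegree_neg], h2⟩
  rw [map_neg, ← e]; ring

theorem sub (hr : HtLE ι r h) (hs : HtLE ι s h') : HtLE ι (r - s) (h + h') := by
  rw [sub_eq_add_neg]
  exact hr.add hs.neg

theorem inv (hι : Function.Injective ι) (hr : HtLE ι r h) : HtLE ι r⁻¹ h := by
  by_cases hr0 : r = 0
  · rw [hr0, inv_zero]
    exact ⟨0, 1, one_ne_zero, by simp, by simp, by simp⟩
  obtain ⟨p, q, hq, e, h1, h2⟩ := hr
  have hp : p ≠ 0 := by
    rintro rfl
    rw [map_zero] at e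
    rcases mul_eq_zero.1 e with e | e
    · exact hr0 e
    · exact hq (hι (by rw [e, map_zero]))
  refine ⟨q, p, hp, ?_, h2, h1⟩
  rw [← e, inv_mul_cancel_left₀ hr0]

theorem div (hι : Function.Injective ι) (hr : HtLE ι r h) (hs : HtLE ι s h') :
    HtLE ι (r / s) (h + h') := by
  rw [div_eq_mul_inv]
  exact hr.mul (hs.inv hι)

theorem sq (hr : HtLE ι r h) : HtLE ι (r ^ 2) (h + h) := by
  rw [pow_two]
  exact hr.mul hr

end HtLE

variable [DecidableEq F] {c : F}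

/-- bound for the coordinates of a point -/
def HB (ι : MvPolynomial (Fin m) K →+* F) (P : Pt c) (h : ℕ) : Prop :=
  ∀ x y hn, P = WeierstrassCurve.Affine.Point.some x y hn → HtLE ι x h ∧ HtLE ι y h

omit [DecidableEq F] in
theorem HB.mono {P : Pt c} {h h' : ℕ} (hP : HB ι P h) (hh : h ≤ h') : HB ι P h' :=
  fun x y hn e => ⟨(hP x y hn e).1.mono hh, (hP x y hn e).2.mono hh⟩

omit [DecidableEq F] in
theorem HB.zero {h : ℕ} : HB ι (0 : Pt c) h := by
  intro x y hn e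
  exact absurd e.symm (by simp)

theorem HB.add [CharZero F] (hι : Function.Injective ι) {P Q : Pt c} {h h' : ℕ} (hP : HB ι P h)
    (hQ : HB ι Q h') : HB ι (P + Q) (13 * (h + h')) := by
  rcases eP : P with _ | ⟨x, y, hn⟩
  · rw [← WeierstrassCurve.Affine.Point.zero_def, zero_add]
    exact hQ.mono (by omega)
  rcases eQ : Q with _ | ⟨x', y', hn'⟩
  · rw [← WeierstrassCurve.Affine.Point.zero_def, add_zero]
    rw [← eP]
    exact hP.mono (by omega)
  obtain ⟨hx, hy⟩ := hP x y hn eP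
  obtain ⟨hx', hy'⟩ := hQ x' y' hn' eQ
  by_cases hxx : x = x'
  · subst hxx
    have h1 := W_eq hn
    have h2 := W_eq hn'
    have h3 : (y - y') * (y + y') = 0 := by linear_combination h1 - h2
    rcases eq_or_ne (y + y') 0 with h0 | h0
    · have : WeierstrassCurve.Affine.Point.some x y hn +
          WeierstrassCurve.Affine.Point.some x y' hn' = (0 : Pt c) := by
        apply WeierstrassCurve.Affine.Point.add_of_Y_eq rfl
        rw [negY_eq]
        linear_combination h0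
      rw [this]
      exact HB.zero
    · have h4 : y = y' := sub_eq_zero.1 ((mul_eq_zero.1 h3).resolve_right h0)
      subst h4
      have hy0 : y ≠ 0 := by
        rintro rfl
        apply h0
        ring
      obtain ⟨X, Y, hN, e, eX, eY⟩ := dbl hn hy0
      have hs : HtLE ι (3 * x ^ 2 / (2 * y)) (0 + (h + h) + (0 + h)) :=
        ((HtLE.nat 3).mul hx.sq).div hι ((HtLE.nat 2).mul hy)
      have hX : HtLE ι X (0 + (h + h) + (0 + h) + (0 + (h + h) + (0 + h)) + h + h) := by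
        rw [eX]
        exact (hs.sq.sub hx).sub hx
      have hY : HtLE ι Y (h + (0 + (h + h) + (0 + h) +
          (0 + (h + h) + (0 + h) + (0 + (h + h) + (0 + h)) + h + h + h))) := by
        rw [eY]
        exact (hy.add (hs.mul (hX.sub hx))).neg
      rw [e]
      intro a b hn'' e''
      injection e'' with e1 e2
      rw [← e1, ← e2]
      exact ⟨hX.mono (by omega), hY.mono (by omega)⟩
  · obtain ⟨X, Y, hN, e, eX, eY⟩ := add_ne hn hn' hxx
    have hs : HtLE ι ((y - y') / (x - x')) (h + h' + (h + h')) :=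
      (hy.sub hy').div hι (hx.sub hx')
    have hX : HtLE ι X (h + h' + (h + h') + (h + h' + (h + h')) + h + h') := by
      rw [eX]
      exact (hs.sq.sub hx).sub hx'
    have hY : HtLE ι Y (h + (h + h' + (h + h') +
        (h + h' + (h + h') + (h + h' + (h + h')) + h + h' + h))) := by
      rw [eY]
      exact (hy.add (hs.mul (hX.sub hx))).neg
    rw [e]
    intro a b hn'' e''
    injection e'' with e1 e2
    rw [← e1, ← e2]
    exact ⟨hX.mono (by omega), hY.mono (by omega)⟩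

theorem HB.nsmul [CharZero F] (hι : Function.Injective ι) {P : Pt c} {h : ℕ} (hP : HB ι P h)
    (n : ℕ) : HB ι (n • P) (h * n ^ 9) := by
  induction n using Nat.strong_induction_on with
  | _ n ih =>
    rcases Nat.eq_zero_or_pos n with rfl | hn
    · rw [zero_smul]; exact HB.zero
    rcases eq_or_ne n 1 with rfl | hn1
    · rw [one_smul]; exact hP.mono (by simp)
    rcases Nat.even_or_odd' n with ⟨q, rfl | rfl⟩
    · have h1 := ih q (by omega)
      have h2 := h1.add hι h1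
      rw [← two_nsmul, smul_smul] at h2
      refine h2.mono ?_
      have : (2 * q) ^ 9 = 512 * q ^ 9 := by ring
      rw [this]
      nlinarith [Nat.zero_le (h * q ^ 9)]
    · have h1 := ih q (by omega)
      have h2 := h1.add hι h1
      rw [← two_nsmul, smul_smul] at h2
      have h3 := h2.add hι hP
      have e : (2 * q) • P + P = (2 * q + 1) • P := by rw [add_smul, one_smul]
      rw [e] at h3
      refine h3.mono ?_
      have hq : 1 ≤ q := by omega
      have h4 : 1 ≤ q ^ 9 := Nat.one_le_pow _ _ hq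
      have h5 : (2 * q) ^ 9 ≤ (2 * q + 1) ^ 9 := Nat.pow_le_pow_left (by omega) 9
      have h6 : (2 * q) ^ 9 = 512 * q ^ 9 := by ring
      have h7 : h ≤ h * q ^ 9 := Nat.le_mul_of_pos_right _ h4
      have h8 : h * (512 * q ^ 9) ≤ h * (2 * q + 1) ^ 9 := Nat.mul_le_mul_left h (h6 ▸ h5)
      nlinarith

/-- Polynomial growth of the degrees of the coordinates of the orbit. -/
theorem ht_iter [CharZero F] (hι : Function.Injective ι) {a : Fin 3 → F}
    (hN : ∀ n, NDS (st^[n] a)) {h : ℕ} (ha : ∀ i, HtLE ι (a i) h) :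
    ∃ C : ℕ, ∀ n, 1 ≤ n → ∀ i, HtLE ι (st^[n] a i) (C * n ^ 18) := by
  obtain ⟨κ, hκ, hκ0, hns, P, Q, hR⟩ := rep_of_state (hN 0)
  simp only [Function.iterate_zero, id] at hκ hR
  have hy0 : κ ^ 2 ≠ 0 := pow_ne_zero _ hκ0
  -- heights of the initial data
  obtain ⟨H, hH1, hP, hQ⟩ : ∃ H : ℕ, HB ι (WeierstrassCurve.Affine.Point.some κ (κ ^ 2) hns) H ∧
      HB ι P H ∧ HB ι Q H := by
    have ex : ∀ r : F, (∃ h, HtLE ι r h) → ∀ s : F, (∃ h, HtLE ι s h) →
        (∃ h, HtLE ι (r - s) h) ∧ (∃ h, HtLE ι (r * s) h) ∧ (∃ h, HtLE ι (r / s) h) ∧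
        (∃ h, HtLE ι (r + s) h) := by
      rintro r ⟨h1, h1'⟩ s ⟨h2, h2'⟩
      exact ⟨⟨_, h1'.sub h2'⟩, ⟨_, h1'.mul h2'⟩, ⟨_, h1'.div hι h2'⟩, ⟨_, h1'.add h2'⟩⟩
    have e0 : ∃ h, HtLE ι (a 0) h := ⟨h, ha 0⟩
    have e1 : ∃ h, HtLE ι (a 1) h := ⟨h, ha 1⟩
    have e2 : ∃ h, HtLE ι (a 2) h := ⟨h, ha 2⟩
    have o1 : ∃ h, HtLE ι (1 : F) h := ⟨0, HtLE.one⟩
    have o2 : ∃ h, HtLE ι (2 : F) h := ⟨0, HtLE.nat 2⟩
    have cube : ∀ r : F, (∃ h, HtLE ι r h) → ∃ h, HtLE ι (r ^ 3) h := by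
      intro r hr
      have h1 := (ex _ (ex _ hr _ hr).2.1 _ hr).2.1
      have : r * r * r = r ^ 3 := by ring
      rwa [this] at h1
    have sqr : ∀ r : F, (∃ h, HtLE ι r h) → ∃ h, HtLE ι (r ^ 2) h := by
      intro r hr
      have h1 := (ex _ hr _ hr).2.1
      have : r * r = r ^ 2 := by ring
      rwa [this] at h1
    have f0 := (ex _ (cube _ e0) _ o1).1
    have f1 := (ex _ (cube _ e1) _ o1).1
    have frho : ∃ h, HtLE ι (rho (a 0) (a 1) (a 2)) h :=
      (ex _ (ex _ o2 _ (ex _ f1 _ (ex _ e2 _ f0).2.1).1).2.1 _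
        (ex _ (ex _ (sqr _ e2) _ f0).2.1 _ f1).1).2.2.1
    have fkap : ∃ h, HtLE ι κ h := by
      rw [hκ]
      exact (ex _ f0 _ (ex _ frho _ (ex _ frho _ o2).2.2.2).2.1).2.2.1
    have fk2 := sqr _ fkap
    obtain ⟨-, ⟨hP, rfl⟩, ⟨hQ, rfl⟩⟩ := hR
    obtain ⟨h3, h3'⟩ := (ex _ fkap _ e0).2.1
    obtain ⟨h4, h4'⟩ := (ex _ fk2 _ (ex _ o1 _ frho).2.2.2).2.1
    obtain ⟨h5, h5'⟩ := (ex _ fkap _ e1).2.1
    obtain ⟨h6, h6'⟩ := (ex _ fk2 _ (ex _ o1 _ (ex _ e2 _ frho).2.1).2.2.2).2.1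
    obtain ⟨h1, h1'⟩ := fkap
    obtain ⟨h2, h2'⟩ := fk2
    refine ⟨h1 + h2 + h3 + h4 + h5 + h6, ?_, ?_, ?_⟩
    · intro x y hn e
      injection e with e1 e2
      rw [← e1, ← e2]
      exact ⟨h1'.mono (by omega), h2'.mono (by omega)⟩
    · intro x y hn e
      injection e with e1 e2
      rw [← e1, ← e2]
      exact ⟨h3'.mono (by omega), h4'.mono (by omega)⟩
    · intro x y hn e
      injection e with e1 e2
      rw [← e1, ← e2]
      exact ⟨h5'.mono (by omega), h6'.mono (by omega)⟩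
  obtain ⟨hx1, hy1⟩ := hH1 _ _ _ rfl
  refine ⟨704 * H, fun n hn => ?_⟩
  have hRn := hR.iter hns hκ0 hy0 hN n
  obtain ⟨-, ⟨hPn, ePn⟩, ⟨hQn, eQn⟩⟩ := hRn
  have hc : n.choose 2 ≤ n ^ 2 := Nat.choose_le_pow n 2
  have b1 : HB ι (P + n • WeierstrassCurve.Affine.Point.some κ (κ ^ 2) hns)
      (13 * (H + H * n ^ 9)) := hP.add hι (hH1.nsmul hι n)
  have b2 : HB ι (Q + n • P + (n.choose 2) •
      WeierstrassCurve.Affine.Point.some κ (κ ^ 2) hns)
      (13 * (13 * (H + H * n ^ 9) + H * (n.choose 2) ^ 9)) :=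
    (hQ.add hι (hP.nsmul hι n)).add hι (hH1.nsmul hι _)
  have hn9 : 1 ≤ n ^ 9 := Nat.one_le_pow _ _ hn
  have hn18 : n ^ 9 ≤ n ^ 18 := Nat.pow_le_pow_right hn (by norm_num)
  have hc9 : (n.choose 2) ^ 9 ≤ n ^ 18 := by
    have := Nat.pow_le_pow_left hc 9
    rwa [← pow_mul] at this
  have k1 : H ≤ H * n ^ 18 := Nat.le_mul_of_pos_right _ (by omega)
  have k2 : H * n ^ 9 ≤ H * n ^ 18 := Nat.mul_le_mul_left _ hn18
  have k3 : H * (n.choose 2) ^ 9 ≤ H * n ^ 18 := Nat.mul_le_mul_left _ hc9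
  obtain ⟨g1, g2⟩ := (b1.mono (h' := 351 * (H * n ^ 18)) (by omega)) _ _ _ ePn
  obtain ⟨g3, g4⟩ := (b2.mono (h' := 351 * (H * n ^ 18)) (by omega)) _ _ _ eQn
  have dv : ∀ (t s : F) (hh : ℕ), t ≠ 0 → HtLE ι t H → HtLE ι (t * s) hh → HtLE ι s (hh + H) := by
    intro t s hh ht h1 h2
    have := h2.div hι h1
    rwa [mul_div_cancel_left₀ _ ht] at this
  have r0 := dv _ _ _ hκ0 hx1 g1
  have r1 := dv _ _ _ hκ0 hx1 g3
  have r2 := (dv _ _ _ hy0 hy1 g2).sub HtLE.one
  have r3 := (dv _ _ _ hy0 hy1 g4).sub HtLE.one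
  rw [add_sub_cancel_left] at r2 r3
  have r4 := r3.div hι r2
  rw [mul_div_cancel_right₀ _ (hN n).d2] at r4
  have kk : 704 * H * n ^ 18 = 704 * (H * n ^ 18) := by ring
  rw [kk]
  intro i
  fin_cases i
  · exact r0.mono (by omega)
  · exact r1.mono (by omega)
  · exact r4.mono (by omega)

end Ht

end Pool.Agent.X321.DG
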