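import Mathlib
import Pool.Agent.H905R3.RatMap
import Pool.Agent.X321.Homog
import Pool.Agent.X321.DG.Ht

/-!
Rational maps of projective space with given affine coordinate functions, and their iterates.
-/

set_option autoImplicit false

namespace Pool.Agent.X321.DG

open MvPolynomial Pool.Agent.H905R3

section Hom

variable {K : Type*} [Field K] {m : ℕ}

/-- homogenization -/
noncomputable def hom (D : ℕ) (p : MvPolynomial (Fin m) K) : MvPolynomial (Fin (m + 1)) K :=
  ∑ c ∈ p.support, monomial (Finsupp.cons (D - c.degree) c) (coeff c p)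

theorem hom_homog {D : ℕ} {p : MvPolynomial (Fin m) K} (hD : p.totalDegree ≤ D) :
    (hom D p).IsHomogeneous D := by
  refine IsHomogeneous.sum _ _ _ fun c hc => isHomogeneous_monomial _ ?_
  have h1 : c.degree ≤ D := by
    refine le_trans ?_ hD
    have := le_totalDegree hc
    rwa [Finsupp.sum_fintype _ _ (by simp), ← Finsupp.degree_eq_sum] at this
  rw [Finsupp.degree_eq_sum, Fin.sum_univ_succ]
  simp only [Finsupp.cons_zero, Finsupp.cons_succ]
  rw [← Finsupp.degree_eq_sum]
  omega

/-- the affine point `[1 : a]` in coordinates -/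
def aff {L : Type*} [One L] (a : Fin m → L) : Fin (m + 1) → L := Fin.cons 1 a

theorem aeval_hom {L : Type*} [Field L] [Algebra K L] (D : ℕ) (p : MvPolynomial (Fin m) K)
    (a : Fin m → L) : aeval (aff a) (hom D p) = aeval a p := by
  rw [hom, map_sum, aeval_def a p, eval₂_eq']
  refine Finset.sum_congr rfl fun c _ => ?_
  rw [aeval_monomial, Finsupp.prod_fintype _ _ (by simp), Fin.prod_univ_succ]
  simp [aff]

/-- dehomogenization -/
noncomputable def deh (G : MvPolynomial (Fin (m + 1)) K) : MvPolynomial (Fin m) K :=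
  aeval (aff (X : Fin m → MvPolynomial (Fin m) K)) G

theorem aeval_deh {M : Type*} [Field M] [Algebra K M] (b : Fin m → M)
    (G : MvPolynomial (Fin (m + 1)) K) : aeval b (deh G) = aeval (aff b) G := by
  have h1 : (fun i => aeval b ((aff (X : Fin m → MvPolynomial (Fin m) K)) i)) = aff b := by
    funext i
    refine Fin.cases ?_ (fun j => ?_) i <;> simp [aff]
  rw [deh, MvPolynomial.comp_aeval_apply, h1]

theorem aeval_alg {σ : Type*} {F : Type*} [Field F] [Algebra K F] [Algebra (MvPolynomial σ K) F]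
    [IsScalarTower K (MvPolynomial σ K) F] (p : MvPolynomial σ K) :
    aeval (fun i => algebraMap (MvPolynomial σ K) F (X i)) p = algebraMap _ F p := by
  have : (aeval (fun i => algebraMap (MvPolynomial σ K) F (X i)) : MvPolynomial σ K →ₐ[K] F) =
      IsScalarTower.toAlgHom K (MvPolynomial σ K) F := by
    apply MvPolynomial.algHom_ext
    intro i
    rw [aeval_X]
    rfl
  rw [this]
  rfl

theorem deh_ne {G : MvPolynomial (Fin (m + 1)) K} {D : ℕ} (hG : G.IsHomogeneous D) (h0 : G ≠ 0) :
    deh G ≠ 0 := by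
  intro h
  let F' := FractionRing (MvPolynomial (Fin (m + 1)) K)
  let T : Fin (m + 1) → F' := fun i => algebraMap (MvPolynomial (Fin (m + 1)) K) F' (X i)
  have hinj : Function.Injective (algebraMap (MvPolynomial (Fin (m + 1)) K) F') :=
    IsFractionRing.injective _ _
  have hT0 : T 0 ≠ 0 := fun h1 => X_ne_zero (R := K) (0 : Fin (m + 1)) (hinj (by
    rw [map_zero]; exact h1))
  have h2 : aeval T G = 0 := by
    have e : T = fun i => T 0 * aff (fun j : Fin m => T j.succ / T 0) i := by
      funext i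
      refine Fin.cases ?_ (fun j => ?_) i
      · simp [aff]
      · simp only [aff, Fin.cons_succ]
        exact (mul_div_cancel₀ _ hT0).symm
    rw [e, aeval_smul_of_isHomogeneous hG, ← aeval_deh, h, map_zero, mul_zero]
  apply h0
  apply hinj
  rw [map_zero, ← h2]
  exact (aeval_alg G).symm

theorem aeval_aff_ne {L : Type*} [Field L] [Algebra K L] {a : Fin m → L}
    (ha : Function.Injective (aeval a : MvPolynomial (Fin m) K →ₐ[K] L))
    {G : MvPolynomial (Fin (m + 1)) K} {D : ℕ} (hG : G.IsHomogeneous D) (h0 : G ≠ 0) :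
    aeval (aff a) G ≠ 0 := by
  intro h
  rw [← aeval_deh] at h
  exact deh_ne hG h0 (ha (by rw [h, map_zero]))

end Hom

section Red

variable {K : Type*} [Field K] {N : ℕ}

/-- dividing out the greatest common divisor -/
theorem reduce {G : Fin (N + 1) → MvPolynomial (Fin (N + 1)) K} {D : ℕ}
    (hG : ∀ i, (G i).IsHomogeneous D) {i₀ : Fin (N + 1)} (h0 : G i₀ ≠ 0) :
    ∃ (g : RatMap K N) (c : MvPolynomial (Fin (N + 1)) K), c ≠ 0 ∧
      (∃ e, c.IsHomogeneous e ∧ e + g.degree = D) ∧ ∀ i, G i = c * g.poly i := by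
  classical
  let _ : NormalizedGCDMonoid (MvPolynomial (Fin (N + 1)) K) := Classical.arbitrary _
  obtain ⟨g, hg, hg1⟩ := Finset.extract_gcd G (s := Finset.univ) ⟨0, Finset.mem_univ _⟩
  set c := Finset.univ.gcd G with hc
  have hc0 : c ≠ 0 := by
    intro h
    apply h0
    rw [hg i₀ (Finset.mem_univ _), h, zero_mul]
  have hg0 : g i₀ ≠ 0 := by
    intro h
    apply h0
    rw [hg i₀ (Finset.mem_univ _), h, mul_zero]
  obtain ⟨e, e', hce, hge, hee⟩ := Homog.isHomogeneous_of_mul (n := D)
    (mul_ne_zero hc0 hg0) (by rw [← hg i₀ (Finset.mem_univ _)]; exact hG i₀)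
  have hghom : ∀ i, (g i).IsHomogeneous e' := by
    intro i
    by_cases hi : g i = 0
    · rw [hi]; exact isHomogeneous_zero _ _ _
    · obtain ⟨b, hb, hb'⟩ := Homog.isHomogeneous_right hce (mul_ne_zero hc0 hi)
        (by rw [← hg i (Finset.mem_univ _)]; exact hG i)
      rwa [show b = e' by omega] at hb
  have hcop : ∀ H : MvPolynomial (Fin (N + 1)) K, (∀ i, H ∣ g i) → IsUnit H := by
    intro H hH
    apply isUnit_of_dvd_one
    rw [← hg1]
    exact Finset.dvd_gcd fun i _ => hH i
  exact ⟨⟨g, e', hghom, hcop⟩, c, hc0, ⟨e, hce, hee⟩, fun i => hg i (Finset.mem_univ _)⟩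

/-- proportional tuples are multiples of the reduced one -/
theorem exists_factor (g : RatMap K N) {G : Fin (N + 1) → MvPolynomial (Fin (N + 1)) K}
    (h : ∀ i j, G i * g.poly j = G j * g.poly i) : ∃ H, ∀ i, G i = g.poly i * H := by
  classical
  let _ : NormalizedGCDMonoid (MvPolynomial (Fin (N + 1)) K) := Classical.arbitrary _
  obtain ⟨j, hj⟩ := g.exists_ne_zero
  have hu : IsUnit (Finset.univ.gcd g.poly) := g.reduced _ fun i =>
    Finset.gcd_dvd (Finset.mem_univ i)
  have h1 : g.poly j ∣ Finset.univ.gcd fun i => G j * g.poly i :=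
    Finset.dvd_gcd fun i _ => ⟨G i, by rw [← h i j, mul_comm]⟩
  have h2 := h1.trans (Finset.gcd_mul_left' Finset.univ g.poly (G j)).dvd
  have h3 : g.poly j ∣ G j := (IsUnit.dvd_mul_right hu).1 h2
  obtain ⟨H, hH⟩ := h3
  refine ⟨H, fun i => mul_right_cancel₀ hj ?_⟩
  rw [h i j, hH]
  ring

theorem degree_le (g : RatMap K N) {G : Fin (N + 1) → MvPolynomial (Fin (N + 1)) K} {D : ℕ}
    (hG : ∀ i, (G i).IsHomogeneous D) {i₀ : Fin (N + 1)} (h0 : G i₀ ≠ 0)
    (h : ∀ i j, G i * g.poly j = G j * g.poly i) : g.degree ≤ D := by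
  obtain ⟨H, hH⟩ := exists_factor g h
  have h1 : g.poly i₀ * H ≠ 0 := by rw [← hH]; exact h0
  obtain ⟨b, -, hb⟩ := Homog.isHomogeneous_right (g.homogeneous i₀) h1
    (by rw [← hH]; exact hG i₀)
  omega

theorem subst_homog (f : RatMap K N) (n : ℕ) (i : Fin (N + 1)) :
    (f.subst n i).IsHomogeneous (f.degree ^ n) := by
  induction n generalizing i with
  | zero => simpa [RatMap.subst] using isHomogeneous_X K i
  | succ n ih =>
    rw [RatMap.subst, pow_succ]
    exact (f.homogeneous i).aeval _ ih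

end Red

section Maps

variable {K : Type*} [Field K] {m : ℕ}

/-- tuples which are proportional at a generic point -/
theorem cross_of_gen {F : Type*} [Field F] [Algebra K F] {a : Fin m → F}
    (ha : Function.Injective (aeval a : MvPolynomial (Fin m) K →ₐ[K] F))
    {G G' : Fin (m + 1) → MvPolynomial (Fin (m + 1)) K} {D D' : ℕ}
    (hG : ∀ i, (G i).IsHomogeneous D) (hG' : ∀ i, (G' i).IsHomogeneous D')
    {t t' : F} {c : Fin (m + 1) → F} (h : ∀ i, aeval (aff a) (G i) = t * c i)
    (h' : ∀ i, aeval (aff a) (G' i) = t' * c i) (i j : Fin (m + 1)) :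
    G i * G' j = G j * G' i := by
  rw [← sub_eq_zero]
  by_contra hne
  refine aeval_aff_ne ha (((hG i).mul (hG' j)).sub ((hG j).mul (hG' i))) hne ?_
  rw [map_sub, map_mul, map_mul, h, h', h, h']
  ring

variable {F : Type*} [Field F] [Algebra K F] [Algebra (MvPolynomial (Fin m) K) F]
  [IsScalarTower K (MvPolynomial (Fin m) K) F] [IsFractionRing (MvPolynomial (Fin m) K) F]

/-- the generic point -/
noncomputable def gen (K : Type*) [Field K] (m : ℕ) (F : Type*) [Field F]
    [Algebra (MvPolynomial (Fin m) K) F] : Fin m → F :=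
  fun i => algebraMap (MvPolynomial (Fin m) K) F (X i)

omit [IsFractionRing (MvPolynomial (Fin m) K) F] in
theorem aeval_gen (p : MvPolynomial (Fin m) K) : aeval (gen K m F) p = algebraMap _ F p :=
  aeval_alg p

theorem gen_inj : Function.Injective (aeval (gen K m F) : MvPolynomial (Fin m) K →ₐ[K] F) := by
  intro p q h
  rw [aeval_gen, aeval_gen] at h
  exact IsFractionRing.injective _ _ h

/-- **Existence of rational maps** with prescribed affine coordinate functions. -/
theorem exists_ratMap (r : Fin m → F) :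
    ∃ f : RatMap K m, ∀ (L : Type*) [Field L] [Algebra K L] (a c : Fin m → L),
      (∀ i, Ev (algebraMap (MvPolynomial (Fin m) K) F)
        (aeval a : MvPolynomial (Fin m) K →ₐ[K] L).toRingHom (r i) (c i)) →
      ∃ t : L, t ≠ 0 ∧ ∀ i, aeval (aff a) (f.poly i) = t * aff c i := by
  classical
  obtain ⟨⟨b, hb⟩, hint⟩ := IsLocalization.exist_integer_multiples_of_finite
    (nonZeroDivisors (MvPolynomial (Fin m) K)) r
  have hb0 : b ≠ 0 := nonZeroDivisors.ne_zero hb
  choose p hp using hint
  have hp' : ∀ i, algebraMap _ F (p i) =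
      algebraMap _ _ b * r i := by
    intro i
    rw [hp i]
    simp [Algebra.smul_def]
  set D := max b.totalDegree (Finset.univ.sup fun i => (p i).totalDegree) with hD
  have hDp : ∀ i, (p i).totalDegree ≤ D := fun i =>
    (Finset.le_sup (f := fun i => (p i).totalDegree) (Finset.mem_univ i)).trans (le_max_right _ _)
  let bp : Fin (m + 1) → MvPolynomial (Fin m) K := Fin.cons b p
  let G : Fin (m + 1) → MvPolynomial (Fin (m + 1)) K := fun i => hom D (bp i)
  have hbpD : ∀ i, (bp i).totalDegree ≤ D := by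
    intro i
    refine Fin.cases ?_ (fun j => ?_) i
    · exact le_max_left _ _
    · exact hDp j
  have hGhom : ∀ i, (G i).IsHomogeneous D := fun i => hom_homog (hbpD i)
  have hGev : ∀ i, aeval (aff (gen K m F)) (G i) =
      algebraMap _ F b * aff r i := by
    intro i
    show aeval (aff (gen K m F)) (hom D (bp i)) = _
    rw [aeval_hom, aeval_gen]
    refine Fin.cases ?_ (fun j => ?_) i
    · simp [bp, aff]
    · simp [bp, aff, hp']
  have hG0 : G 0 ≠ 0 := by
    intro h
    have := hGev 0
    rw [h, map_zero] at this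
    simp only [aff, Fin.cons_zero, mul_one] at this
    exact hb0 (IsFractionRing.injective (MvPolynomial (Fin m) K) _ (by rw [← this, map_zero]))
  obtain ⟨f, c₀, hc₀, ⟨e, he, -⟩, hf⟩ := reduce hGhom hG0
  have hc₀ev : aeval (aff (gen K m F)) c₀ ≠ 0 := aeval_aff_ne gen_inj he hc₀
  have hfev : ∀ i, aeval (aff (gen K m F)) (f.poly i) =
      (algebraMap _ F b / aeval (aff (gen K m F)) c₀) *
        aff r i := by
    intro i
    have h1 := hGev i
    rw [hf i, map_mul] at h1
    rw [div_mul_eq_mul_div, ← h1, mul_div_cancel_left₀ _ hc₀ev]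
  refine ⟨f, fun L _ _ a c hac => ?_⟩
  choose p' q' hq' h1 h2 using hac
  set Q : MvPolynomial (Fin m) K := ∏ i, q' i with hQ
  let P : Fin m → MvPolynomial (Fin m) K := fun i => p' i * ∏ j ∈ Finset.univ.erase i, q' j
  have hQi : ∀ i, Q = q' i * ∏ j ∈ Finset.univ.erase i, q' j := fun i =>
    (Finset.mul_prod_erase _ _ (Finset.mem_univ i)).symm
  have hQa : aeval a Q ≠ 0 := by
    rw [hQ, map_prod]
    exact Finset.prod_ne_zero_iff.mpr fun i _ => hq' i
  have hP1 : ∀ i, algebraMap _ F (P i) =
      algebraMap _ _ Q * r i := by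
    intro i
    rw [hQi i, map_mul, map_mul, ← h1 i]
    ring
  have hP2 : ∀ i, aeval a (P i) = aeval a Q * c i := by
    intro i
    have h3 : c i * aeval a (q' i) = aeval a (p' i) := h2 i
    rw [hQi i, map_mul, map_mul, ← h3]
    ring
  set D' := max Q.totalDegree (Finset.univ.sup fun i => (P i).totalDegree) with hD'
  let bp' : Fin (m + 1) → MvPolynomial (Fin m) K := Fin.cons Q P
  let G' : Fin (m + 1) → MvPolynomial (Fin (m + 1)) K := fun i => hom D' (bp' i)
  have hbpD' : ∀ i, (bp' i).totalDegree ≤ D' := by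
    intro i
    refine Fin.cases ?_ (fun j => ?_) i
    · exact le_max_left _ _
    · exact (Finset.le_sup (f := fun i => (P i).totalDegree) (Finset.mem_univ j)).trans
        (le_max_right _ _)
  have hG'hom : ∀ i, (G' i).IsHomogeneous D' := fun i => hom_homog (hbpD' i)
  have hG'ev : ∀ i, aeval (aff (gen K m F)) (G' i) =
      algebraMap _ F Q * aff r i := by
    intro i
    show aeval (aff (gen K m F)) (hom D' (bp' i)) = _
    rw [aeval_hom, aeval_gen]
    refine Fin.cases ?_ (fun j => ?_) i
    · simp [bp', aff]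
    · simp only [bp', aff, Fin.cons_succ]
      exact hP1 j
  have hG'a : ∀ i, aeval (aff a) (G' i) = aeval a Q * aff c i := by
    intro i
    show aeval (aff a) (hom D' (bp' i)) = _
    rw [aeval_hom]
    refine Fin.cases ?_ (fun j => ?_) i
    · simp [bp', aff]
    · simp only [bp', aff, Fin.cons_succ]
      exact hP2 j
  obtain ⟨H, hH⟩ := exists_factor f (cross_of_gen gen_inj hG'hom f.homogeneous hG'ev hfev)
  have e0 : aeval (aff a) (f.poly 0) * aeval (aff a) H = aeval a Q := by
    rw [← map_mul, ← hH 0, hG'a]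
    simp [aff]
  have hHa : aeval (aff a) H ≠ 0 := by
    intro h; rw [h, mul_zero] at e0; exact hQa e0.symm
  have hfa : aeval (aff a) (f.poly 0) ≠ 0 := by
    intro h; rw [h, zero_mul] at e0; exact hQa e0.symm
  refine ⟨aeval (aff a) (f.poly 0), hfa, fun i => mul_right_cancel₀ hHa ?_⟩
  rw [← map_mul, ← hH i, hG'a, ← e0]
  ring

/-- orbits -/
theorem subst_orbit (f : RatMap K m) {L : Type*} [Field L] [Algebra K L] (a : ℕ → Fin m → L)
    (h : ∀ n, ∃ t : L, t ≠ 0 ∧ ∀ i, aeval (aff (a n)) (f.poly i) = t * aff (a (n + 1)) i)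
    (n : ℕ) : ∃ t : L, t ≠ 0 ∧ ∀ i, aeval (aff (a 0)) (f.subst n i) = t * aff (a n) i := by
  induction n with
  | zero =>
    refine ⟨1, one_ne_zero, fun i => ?_⟩
    rw [RatMap.subst, aeval_X, one_mul]
  | succ n ih =>
    obtain ⟨t, ht, h1⟩ := ih
    obtain ⟨t', ht', h2⟩ := h n
    refine ⟨t ^ f.degree * t', mul_ne_zero (pow_ne_zero _ ht) ht', fun i => ?_⟩
    rw [RatMap.aeval_subst_succ]
    have e : (fun j => aeval (aff (a 0)) (f.subst n j)) = fun j => t * aff (a n) j :=
      funext h1
    rw [e, aeval_smul_of_isHomogeneous (f.homogeneous i), h2]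
    ring

end Maps

end Pool.Agent.X321.DG
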