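import Mathlib
import Pool.Agent.X321.DG.Rat

/-!
An orbit over a field of rational functions in one variable: the points are multiples of a point of a
twist of a constant curve.
-/

set_option autoImplicit false

namespace Pool.Agent.X321.DG

open Polynomial WeierstrassCurve.Affine

section Double

variable {K L : Type*} [Field K] [CharZero K] [Field L] [CharZero L] [DecidableEq L]
  {ι : K[X] →+* L}

/-- twisting polynomial -/
noncomputable def ee (K : Type*) [Field K] : K[X] := X * (1 + X ^ 3)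

theorem ee_ne : ee K ≠ 0 := by
  refine mul_ne_zero X_ne_zero ?_
  intro h
  have := congrArg (Polynomial.eval 0) h
  simp at this

omit [CharZero K] in
theorem ee_deg : (ee K).natDegree ≤ 4 := by
  unfold ee
  compute_degree

/-- the curve -/
noncomputable abbrev cc (ι : K[X] →+* L) : L := ι (ee K) ^ 3

omit [DecidableEq L] in
theorem ns0 (ι : K[X] →+* L) (hι : Function.Injective ι) :
    (Wc (cc ι)).toAffine.Nonsingular (ι (1 + X ^ 3)) (ι ((1 + X ^ 3) ^ 2)) := by
  apply W_nonsing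
  · rw [← map_pow, ← map_pow, cc, ← map_pow, ← map_add]
    congr 1
    unfold ee
    ring
  · left
    rw [map_ne_zero_iff ι hι]
    intro h
    have := congrArg (Polynomial.eval 0) h
    simp at this

/-- the point -/
noncomputable def P0 (ι : K[X] →+* L) (hι : Function.Injective ι) : Pt (cc ι) :=
  Point.some _ _ (ns0 ι hι)

theorem coprime_step {a b : K[X]} (h : IsCoprime a b) :
    IsCoprime (a ^ 4 - 8 * a * b ^ 3) (4 * b * (a ^ 3 + b ^ 3)) := by
  obtain ⟨u, v, huv⟩ := (h.pow (m := 7) (n := 7))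
  have h36 : C (1 / 36 : K) * 36 = 1 := by
    have : (36 : K[X]) = C 36 := by rw [map_ofNat]
    rw [this, ← C_mul]
    norm_num
  refine ⟨C (1 / 36) * (4 * u * (9 * a ^ 3 + 8 * b ^ 3) + v * (4 * a ^ 2 * b)),
    C (1 / 36) * (4 * u * (16 * a * b ^ 2) - v * (a ^ 3 - 9 * b ^ 3)), ?_⟩
  linear_combination (C (1 / 36 : K) * 36) * huv + h36

omit [CharZero K] in
theorem deg_step {a b : K[X]} (h : a.natDegree < b.natDegree) :
    (a ^ 3 + b ^ 3).natDegree = 3 * b.natDegree ∧ a ^ 3 + b ^ 3 ≠ 0 := by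
  have h1 : (a ^ 3).natDegree < (b ^ 3).natDegree := by
    rw [natDegree_pow, natDegree_pow]; omega
  have h2 : (a ^ 3 + b ^ 3).natDegree = (b ^ 3).natDegree :=
    natDegree_add_eq_right_of_natDegree_lt h1
  rw [natDegree_pow] at h2
  refine ⟨h2, ?_⟩
  intro h3
  rw [h3, natDegree_zero] at h2
  omega

omit [CharZero L] [DecidableEq L] in
theorem y_ne {c : L} {x y : L} {a b : K[X]} (hι : Function.Injective ι) (hc : c = cc ι)
    (hn : (Wc c).toAffine.Nonsingular x y) (hx : x * ι b = ι (ee K * a))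
    (hd : a.natDegree < b.natDegree) : y ≠ 0 := by
  intro h
  have h1 := W_eq hn
  rw [h, hc] at h1
  have h2 : (x ^ 3 + ι (ee K) ^ 3) * ι b ^ 3 = ι (ee K ^ 3 * (a ^ 3 + b ^ 3)) := by
    rw [map_mul ι (ee K) a] at hx
    rw [map_mul, map_add, map_pow, map_pow, map_pow]
    linear_combination ((x * ι b) ^ 2 + (x * ι b) * (ι (ee K) * ι a) +
      (ι (ee K) * ι a) ^ 2) * hx
  have h3 : ι (ee K ^ 3 * (a ^ 3 + b ^ 3)) = 0 := by
    rw [← h2]
    have : x ^ 3 + ι (ee K) ^ 3 = 0 := by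
      have h4 : (0 : L) ^ 2 = x ^ 3 + ι (ee K) ^ 3 := h1
      rw [← h4]; ring
    rw [this, zero_mul]
  have h4 : ee K ^ 3 * (a ^ 3 + b ^ 3) ≠ 0 :=
    mul_ne_zero (pow_ne_zero _ ee_ne) (deg_step hd).2
  exact h4 (hι (by rw [h3, map_zero]))

/-- the multiples by powers of two -/
theorem two_pow (hι : Function.Injective ι) (j : ℕ) : ∃ a b : K[X], IsCoprime a b ∧
    a.natDegree < b.natDegree ∧ b.natDegree = 4 ^ j ∧ ∃ (x y : L) (hn : _),
      2 ^ j • P0 ι hι = Point.some x y hn ∧ x * ι b = ι (ee K * a) := by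
  induction j with
  | zero =>
    refine ⟨1, X, isCoprime_one_left, by simp, by simp, _, _, ns0 ι hι, ?_, ?_⟩
    · rw [pow_zero, one_smul]; rfl
    · rw [← map_mul]
      congr 1
      unfold ee
      ring
  | succ j ih =>
    obtain ⟨a, b, hab, hd, hdb, x, y, hn, e, hx⟩ := ih
    have hb : b ≠ 0 := by
      rintro rfl
      rw [natDegree_zero] at hd
      omega
    have hy : y ≠ 0 := y_ne hι rfl hn hx hd
    obtain ⟨X', Y', hN, e', eX, -⟩ := dbl hn hy
    obtain ⟨hd3, hd3'⟩ := deg_step hd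
    have four : (4 : K[X]) ≠ 0 := by
      have : (4 : K[X]) = C 4 := by rw [map_ofNat]
      rw [this, Ne, C_eq_zero]
      norm_num
    have dfour : (4 : K[X]).natDegree = 0 := by
      have : (4 : K[X]) = C 4 := by rw [map_ofNat]
      rw [this, natDegree_C]
    have deight : (8 : K[X]).natDegree = 0 := by
      have : (8 : K[X]) = C 8 := by rw [map_ofNat]
      rw [this, natDegree_C]
    have hbd : (4 * b * (a ^ 3 + b ^ 3)).natDegree = 4 * b.natDegree := by
      rw [natDegree_mul (mul_ne_zero four hb) hd3', natDegree_mul four hb, hd3, dfour]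
      ring
    have had : (a ^ 4 - 8 * a * b ^ 3).natDegree < 4 * b.natDegree := by
      refine lt_of_le_of_lt (natDegree_sub_le _ _) (max_lt ?_ ?_)
      · rw [natDegree_pow]; omega
      · refine lt_of_le_of_lt natDegree_mul_le ?_
        have h1 : (8 * a : K[X]).natDegree ≤ 0 + a.natDegree := by
          refine natDegree_mul_le.trans ?_
          rw [deight]
        rw [natDegree_pow]
        omega
    refine ⟨a ^ 4 - 8 * a * b ^ 3, 4 * b * (a ^ 3 + b ^ 3), coprime_step hab, ?_, ?_, X', Y', hN,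
      ?_, ?_⟩
    · rw [hbd]; exact had
    · rw [hbd, hdb]; ring
    · rw [pow_succ, mul_comm, mul_smul, e, two_smul, e']
    · have h1 := W_eq hn
      have hbι : ι b ≠ 0 := by rwa [map_ne_zero_iff ι hι]
      have hx2 : x = ι (ee K) * ι a / ι b := by
        rw [eq_div_iff hbι, hx, map_mul]
      have hX : X' * (4 * y ^ 2) = 9 * x ^ 4 - 8 * x * y ^ 2 := by
        rw [eX]
        field_simp
        ring
      rw [h1] at hX
      have h4 : x ^ 3 + cc ι ≠ 0 := by rw [← h1]; exact pow_ne_zero _ hy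
      have h5 : X' = (9 * x ^ 4 - 8 * x * (x ^ 3 + cc ι)) / (4 * (x ^ 3 + cc ι)) := by
        rw [eq_div_iff (mul_ne_zero (by norm_num) h4)]
        linear_combination hX
      have h6 : (x ^ 3 + cc ι) * ι b ^ 3 = ι (ee K) ^ 3 * (ι a ^ 3 + ι b ^ 3) := by
        rw [hx2]
        field_simp
      have h7 : ι a ^ 3 + ι b ^ 3 ≠ 0 := by
        intro h
        rw [h, mul_zero] at h6
        exact (mul_ne_zero h4 (pow_ne_zero _ hbι)) h6
      have h8 : x ^ 3 + cc ι = ι (ee K) ^ 3 * (ι a ^ 3 + ι b ^ 3) / ι b ^ 3 := by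
        rw [eq_div_iff (pow_ne_zero _ hbι)]
        exact h6
      have heι : ι (ee K) ≠ 0 := by
        rw [map_ne_zero_iff ι hι]
        exact ee_ne
      rw [h5, h8, hx2]
      simp only [map_mul, map_sub, map_add, map_pow, map_ofNat]
      field_simp
      ring

/-- lower bound for denominators -/
theorem low (hι : Function.Injective ι) {x₁ v : L} {x₁' : K[X]} (hx₁ : x₁ = ι x₁') {j : ℕ}
    {y : L} {hn : (Wc (cc ι)).toAffine.Nonsingular (x₁ * v) y}
    (h : 2 ^ j • P0 ι hι = Point.some (x₁ * v) y hn) {p q : K[X]} (hq : q ≠ 0)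
    (hv : v * ι q = ι p) : 4 ^ j ≤ q.natDegree + 4 := by
  obtain ⟨a, b, hab, hd, hdb, x, y', hn', e, hx⟩ := two_pow hι j
  rw [e] at h
  injection h with h1 h2
  have h3 : ι (x₁' * p * b) = ι (ee K * a * q) := by
    rw [map_mul, map_mul, ← hv, ← hx₁, map_mul ι _ q, ← hx, h1]
    ring
  have h4 : x₁' * p * b = ee K * a * q := hι h3
  have h5 : b ∣ a * (ee K * q) := ⟨x₁' * p, by linear_combination -h4⟩
  have h6 : b ∣ ee K * q := hab.symm.dvd_of_dvd_mul_left h5
  have h7 := natDegree_le_of_dvd h6 (mul_ne_zero ee_ne hq)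
  have h8 : (ee K * q).natDegree ≤ (ee K).natDegree + q.natDegree := natDegree_mul_le
  have h9 := ee_deg (K := K)
  omega

end Double

section Orb

variable {K L : Type*} [Field K] [CharZero K] [Field L] [CharZero L] [DecidableEq L]
  {ι : K[X] →+* L}

/-- the initial state -/
theorem exists_start (hι : Function.Injective ι) : ∃ (x₁ y₁ : L) (hn : _) (x₁' : K[X])
    (a : Fin 3 → L), x₁ = ι x₁' ∧ x₁ ≠ 0 ∧ y₁ ≠ 0 ∧ 2 • P0 ι hι = Point.some x₁ y₁ hn ∧
      EvS ι (evalRingHom (0 : K)) a (cb K 1) ∧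
      Rep (cc ι) x₁ y₁ a (3 • P0 ι hι) (P0 ι hι) := by
  set π : K[X] →+* K := evalRingHom 0 with hπ
  set x₀ : L := ι (1 + X ^ 3) with hx0
  set y₀ : L := ι ((1 + X ^ 3) ^ 2) with hy0
  have hns := ns0 ι hι
  have E0 : Ev ι π x₀ 1 := by
    have := Ev.of (ι := ι) (π := π) (1 + X ^ 3)
    have e : π (1 + X ^ 3) = 1 := by simp [hπ]
    rwa [e] at this
  have E1 : Ev ι π y₀ 1 := by
    have := Ev.of (ι := ι) (π := π) ((1 + X ^ 3) ^ 2)
    have e : π ((1 + X ^ 3) ^ 2) = 1 := by simp [hπ]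
    rwa [e] at this
  have x0ne : x₀ ≠ 0 := E0.ne_zero hι one_ne_zero
  have y0ne : y₀ ≠ 0 := E1.ne_zero hι one_ne_zero
  have hyx : y₀ = x₀ ^ 2 := by rw [hx0, hy0, map_pow]
  obtain ⟨x₁, y₁, hn1, e1, eX, eY⟩ := dbl hns y0ne
  have hs : 3 * x₀ ^ 2 / (2 * y₀) = 3 / 2 := by
    rw [hyx]
    field_simp
  rw [hs] at eX eY
  have half : Ev ι π (3 / 2 : L) (3 / 2 : K) := (Ev.nat 3).div hι (Ev.nat 2) two_ne_zero
  have F0 : Ev ι π x₁ (1 / 4) := by
    have := ((half.pow 2).sub E0).sub E0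
    rw [← eX] at this
    convert this using 1
    norm_num
  have F1 : Ev ι π y₁ (1 / 8) := by
    have := (E1.add (half.mul (F0.sub E0))).neg
    rw [← eY] at this
    convert this using 1
    norm_num
  have x1ne : x₁ ≠ 0 := F0.ne_zero hι (by norm_num)
  have y1ne : y₁ ≠ 0 := F1.ne_zero hι (by norm_num)
  have hxx : x₁ ≠ x₀ := by
    have := (F0.sub E0).ne_zero hι (by norm_num)
    exact sub_ne_zero.1 this
  obtain ⟨x₂, y₂, hn2, e2, eX2, eY2⟩ := add_ne hn1 hns hxx
  have sl : Ev ι π ((y₁ - y₀) / (x₁ - x₀)) (7 / 6) := by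
    have := (F1.sub E1).div hι (F0.sub E0) (by norm_num)
    convert this using 1
    norm_num
  have G0 : Ev ι π x₂ (1 / 9) := by
    have := ((sl.pow 2).sub F0).sub E0
    rw [← eX2] at this
    convert this using 1
    norm_num
  have G1 : Ev ι π y₂ (1 / 27) := by
    have := (F1.add (sl.mul (G0.sub F0))).neg
    rw [← eY2] at this
    convert this using 1
    norm_num
  have H2 : 2 • P0 ι hι = Point.some x₁ y₁ hn1 := by
    rw [two_smul]; exact e1
  have H3 : 3 • P0 ι hι = Point.some x₂ y₂ hn2 := by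
    have : 3 • P0 ι hι = 2 • P0 ι hι + P0 ι hι := by
      rw [show (3 : ℕ) = 2 + 1 from rfl, add_smul, one_smul]
    rw [this, H2]
    exact e2
  have r1 : Ev ι π (y₂ / y₁) (8 / 27) := by
    have := G1.div hι F1 (by norm_num)
    convert this using 1
    norm_num
  have s1 : Ev ι π (y₀ / y₁) 8 := by
    have := E1.div hι F1 (by norm_num)
    convert this using 1
    norm_num
  refine ⟨x₁, y₁, hn1, C (9 / 4) - 2 * (1 + X ^ 3),
    ![x₂ / x₁, x₀ / x₁, (y₀ / y₁ - 1) / (y₂ / y₁ - 1)], ?_, x1ne, y1ne, H2, ?_, ?_⟩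
  · have h9 : ι (C (9 / 4)) * 4 = 9 := by
      have h1 : (C (9 / 4) * 4 : K[X]) = 9 := by
        have e4 : (4 : K[X]) = C 4 := by rw [map_ofNat]
        have e9 : (9 : K[X]) = C 9 := by rw [map_ofNat]
        rw [e4, e9, ← C_mul]
        norm_num
      have h2 : ι (C (9 / 4) * 4) = ι 9 := by rw [h1]
      rwa [map_mul, map_ofNat, map_ofNat] at h2
    rw [eX, map_sub, map_mul, map_ofNat]
    linear_combination (-1 / 4) * h9
  · have c0 : cb K 1 0 = 4 / 9 := by norm_num [cb, cusp]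
    have c1 : cb K 1 1 = 4 := by norm_num [cb, cusp]
    have c2 : cb K 1 2 = -189 / 19 := by
      show (1 / (((1 : ℕ) : K) ^ 2 / 2) ^ 3 - 1) / (1 / ((2 * ((1 : ℕ) : K) + 1) / 2) ^ 3 - 1) = _
      norm_num
    intro i
    fin_cases i
    · show Ev ι π (x₂ / x₁) (cb K 1 0)
      rw [c0]
      have := G0.div hι F0 (by norm_num)
      convert this using 1
      norm_num
    · show Ev ι π (x₀ / x₁) (cb K 1 1)
      rw [c1]
      have := E0.div hι F0 (by norm_num)
      convert this using 1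
      norm_num
    · show Ev ι π ((y₀ / y₁ - 1) / (y₂ / y₁ - 1)) (cb K 1 2)
      rw [c2]
      have := (s1.sub Ev.one).div hι (r1.sub Ev.one) (by norm_num)
      convert this using 1
      norm_num
  · rw [H3]
    exact rep_of_points (W_eq hn1) x1ne y1ne hn2 hns
      ((r1.sub Ev.one).ne_zero hι (by norm_num)) ((r1.add Ev.one).ne_zero hι (by norm_num))
      ((s1.sub Ev.one).ne_zero hι (by norm_num)) ((s1.sub r1).ne_zero hι (by norm_num))

/-- the orbit and its lower bound -/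
theorem exists_orbit (hι : Function.Injective ι) : ∃ a : Fin 3 → L, (∀ n, NDS (st^[n] a)) ∧
    ∀ k n : ℕ, n + 1 = 2 ^ k → ∀ p q : K[X], q ≠ 0 → st^[n] a 1 * ι q = ι p →
      16 ^ k ≤ q.natDegree + 4 := by
  obtain ⟨x₁, y₁, hn, x₁', a, hx, hx0, hy0, h2, hE, hR⟩ := exists_start hι
  have hN : ∀ n, NDS (st^[n] a) := fun n => (orbit hι le_rfl hE n).2
  refine ⟨a, hN, fun k n hk p q hq hv => ?_⟩
  obtain ⟨-, -, ⟨hQ, eQ⟩⟩ := hR.iter hn hx0 hy0 hN n
  rw [← h2, smul_smul, smul_smul] at eQ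
  have e1 : P0 ι hι + (n * 3) • P0 ι hι + (n.choose 2 * 2) • P0 ι hι =
      2 ^ (2 * k) • P0 ι hι := by
    have h3 : n.choose 2 * 2 + n = n ^ 2 := by
      rcases Nat.eq_zero_or_pos n with rfl | hn0
      · simp
      · have h4 := Nat.choose_two_right n
        have h5 : 2 ∣ n * (n - 1) := (Nat.even_mul_pred_self n).two_dvd
        rw [h4, Nat.div_mul_cancel h5]
        obtain ⟨m, rfl⟩ : ∃ m, n = m + 1 := ⟨n - 1, by omega⟩
        simp
        ring
    have h6 : 2 ^ (2 * k) = 1 + n * 3 + n.choose 2 * 2 := by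
      rw [mul_comm 2 k, pow_mul, ← hk]
      nlinarith
    rw [h6, add_smul, add_smul, one_smul]
  rw [e1] at eQ
  have := low hι hx (hn := hQ) eQ hq hv
  rw [pow_mul] at this
  norm_num at this
  exact this

end Orb

end Pool.Agent.X321.DG
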