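import Mathlib
import Pool.Agent.X321.DG.Low

/-!
The rational self-map of projective 3-space, its iterates, their degrees, and dominance.
-/

set_option autoImplicit false

namespace Pool.Agent.X321.DG

open MvPolynomial Pool.Agent.H905R3

universe u

section Main

variable {K : Type u} [Field K] [CharZero K]

/-- the map is given by the formulas `st` -/
def StepProp (f : RatMap K 3) : Prop :=
  ∀ (L : Type u) [Field L] [Algebra K L] (a : Fin 3 → L), NDS a →
    ∃ t : L, t ≠ 0 ∧ ∀ i, aeval (aff a) (f.poly i) = t * aff (st a) i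

omit [CharZero K] in
theorem evS_gen {F : Type u} [Field F] [Algebra (MvPolynomial (Fin 3) K) F]
    {L : Type u} [Field L] [Algebra K L] (a : Fin 3 → L) :
    EvS (algebraMap (MvPolynomial (Fin 3) K) F)
      (aeval a : MvPolynomial (Fin 3) K →ₐ[K] L).toRingHom (gen K 3 F) a := by
  intro i
  have := Ev.of (ι := algebraMap (MvPolynomial (Fin 3) K) F)
    (π := (aeval a : MvPolynomial (Fin 3) K →ₐ[K] L).toRingHom) (X i)
  have e : (aeval a : MvPolynomial (Fin 3) K →ₐ[K] L).toRingHom (X i) = a i := aeval_X a i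
  rwa [e] at this

omit [CharZero K] in
theorem exists_map : ∃ f : RatMap K 3, StepProp f := by
  obtain ⟨f, hf⟩ := exists_ratMap (K := K) (F := FractionRing (MvPolynomial (Fin 3) K))
    (st (gen K 3 _))
  refine ⟨f, fun L _ _ a ha => hf L a (st a) ?_⟩
  exact (evS_gen a).st (IsFractionRing.injective _ _) ha

theorem gen_nd (n : ℕ) : NDS (st^[n] (gen K 3 (FractionRing (MvPolynomial (Fin 3) K)))) :=
  (orbit (IsFractionRing.injective _ _) le_rfl (evS_gen (cb K 1)) n).2

omit [CharZero K] in
theorem subst_pt {f : RatMap K 3} (hf : StepProp f) {L : Type u} [Field L] [Algebra K L]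
    {a : Fin 3 → L} (ha : ∀ n, NDS (st^[n] a)) (n : ℕ) :
    ∃ t : L, t ≠ 0 ∧ ∀ i, aeval (aff a) (f.subst n i) = t * aff (st^[n] a) i :=
  subst_orbit f (fun n => st^[n] a) (fun n => by
    obtain ⟨t, ht, h⟩ := hf L _ (ha n)
    refine ⟨t, ht, fun i => ?_⟩
    rw [h i, Function.iterate_succ_apply']) n

omit [CharZero K] in
theorem iterate_pt {f g : RatMap K 3} (hf : StepProp f) {n : ℕ} (hg : f.IsIterate n g)
    {L : Type u} [Field L] [Algebra K L] {a : Fin 3 → L} (ha : ∀ n, NDS (st^[n] a)) :
    ∃ t : L, t ≠ 0 ∧ ∀ i, aeval (aff a) (g.poly i) = t * aff (st^[n] a) i := by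
  obtain ⟨t, ht, h⟩ := subst_pt hf ha n
  obtain ⟨c, -, hc⟩ := hg
  have h0 := h 0
  rw [hc 0, map_mul] at h0
  simp only [aff, Fin.cons_zero, mul_one] at h0
  have hcne : aeval (Fin.cons 1 a : Fin 4 → L) c ≠ 0 := left_ne_zero_of_mul (h0 ▸ ht)
  refine ⟨t / aeval (aff a) c, div_ne_zero ht hcne, fun i => ?_⟩
  have hi := h i
  rw [hc i, map_mul] at hi
  rw [div_mul_eq_mul_div, ← hi]
  exact (mul_div_cancel_left₀ _ hcne).symm

theorem exists_iterate {f : RatMap K 3} (hf : StepProp f) (n : ℕ) : ∃ g, f.IsIterate n g := by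
  obtain ⟨t, ht, h⟩ := subst_pt hf (L := FractionRing (MvPolynomial (Fin 3) K)) gen_nd n
  have h0 : f.subst n 0 ≠ 0 := by
    intro h1
    have := h 0
    rw [h1, map_zero] at this
    simp only [aff, Fin.cons_zero, mul_one] at this
    exact ht this.symm
  obtain ⟨g, c, hc, -, hg⟩ := reduce (subst_homog f n) h0
  exact ⟨g, c, hc, hg⟩

theorem upper {f : RatMap K 3} (hf : StepProp f) :
    ∃ C : ℕ, ∀ n, 1 ≤ n → ∀ g, f.IsIterate n g → g.degree ≤ C * n ^ 18 := by
  classical
  have hι : Function.Injective (algebraMap (MvPolynomial (Fin 3) K)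
    (FractionRing (MvPolynomial (Fin 3) K))) := IsFractionRing.injective _ _
  have hgen : ∀ i, HtLE (algebraMap (MvPolynomial (Fin 3) K)
      (FractionRing (MvPolynomial (Fin 3) K))) (gen K 3 _ i) 1 := by
    intro i
    refine ⟨X i, 1, one_ne_zero, by simp [gen], ?_, by simp⟩
    rw [totalDegree_X]
  obtain ⟨C, hC⟩ := ht_iter hι gen_nd hgen
  refine ⟨3 * C, fun n hn g hg => ?_⟩
  choose p q hq h1 h2 h3 using hC n hn
  obtain ⟨t, ht, h⟩ := iterate_pt hf hg (L := FractionRing (MvPolynomial (Fin 3) K)) gen_nd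
  set Q : MvPolynomial (Fin 3) K := ∏ i, q i with hQ
  let P : Fin 3 → MvPolynomial (Fin 3) K := fun i => p i * ∏ j ∈ Finset.univ.erase i, q j
  have hQi : ∀ i, Q = q i * ∏ j ∈ Finset.univ.erase i, q j := fun i =>
    (Finset.mul_prod_erase _ _ (Finset.mem_univ i)).symm
  have hQ0 : Q ≠ 0 := Finset.prod_ne_zero_iff.mpr fun i _ => hq i
  have hP1 : ∀ i, algebraMap _ (FractionRing (MvPolynomial (Fin 3) K)) (P i) =
      algebraMap _ _ Q * st^[n] (gen K 3 _) i := by
    intro i
    rw [hQi i, map_mul, map_mul, ← h1 i]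
    ring
  let bp : Fin 4 → MvPolynomial (Fin 3) K := Fin.cons Q P
  have hd : ∀ i, (bp i).totalDegree ≤ 3 * (C * n ^ 18) := by
    have hprod : ∀ s : Finset (Fin 3), (∏ j ∈ s, q j).totalDegree ≤ s.card * (C * n ^ 18) := by
      intro s
      refine (totalDegree_finsetProd _ _).trans ?_
      refine (Finset.sum_le_card_nsmul _ _ (C * n ^ 18) fun i _ => h3 i).trans ?_
      rw [smul_eq_mul]
    intro i
    refine Fin.cases ?_ (fun j => ?_) i
    · exact hprod Finset.univ
    · show (p j * ∏ j ∈ Finset.univ.erase j, q j).totalDegree ≤ _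
      refine (totalDegree_mul _ _).trans ?_
      have h4 := hprod (Finset.univ.erase j)
      have h5 : (Finset.univ.erase j).card = 2 := by
        rw [Finset.card_erase_of_mem (Finset.mem_univ j)]; rfl
      rw [h5] at h4
      have h6 := h2 j
      omega
  have hev : ∀ i, aeval (aff (gen K 3 (FractionRing (MvPolynomial (Fin 3) K))))
      (hom (3 * (C * n ^ 18)) (bp i)) = algebraMap _ _ Q * aff (st^[n] (gen K 3 _)) i := by
    intro i
    rw [aeval_hom, aeval_gen]
    refine Fin.cases ?_ (fun j => ?_) i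
    · simp [bp, aff]
    · simp only [bp, aff, Fin.cons_succ]
      exact hP1 j
  have hne : hom (3 * (C * n ^ 18)) (bp 0) ≠ 0 := by
    intro h0
    have := hev 0
    rw [h0, map_zero] at this
    simp only [aff, Fin.cons_zero, mul_one] at this
    exact hQ0 (hι (by rw [← this, map_zero]))
  have := degree_le g (fun i => hom_homog (hd i)) hne
    (cross_of_gen gen_inj (fun i => hom_homog (hd i)) g.homogeneous hev h)
  rw [mul_assoc]
  exact this

/-- the value is unique -/
theorem Ev.unique {R F k : Type*} [CommRing R] [Field F] [Field k] {ι : R →+* F} {π : R →+* k}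
    (hι : Function.Injective ι) {p : R} {c : k} (h : Ev ι π (ι p) c) : c = π p := by
  obtain ⟨p', q', hq', h1, h2⟩ := h
  have h3 : p * q' = p' := hι (by rw [map_mul, h1])
  rw [← h3, map_mul] at h2
  exact mul_right_cancel₀ hq' h2

theorem degree_pos {f g : RatMap K 3} (hf : StepProp f) {n : ℕ} (hg : f.IsIterate n g) :
    1 ≤ g.degree := by
  by_contra hlt
  have hd : g.degree = 0 := by omega
  obtain ⟨t, ht, h⟩ := iterate_pt hf hg (L := FractionRing (MvPolynomial (Fin 3) K)) gen_nd
  have hc : ∀ i, ∃ c : K, g.poly i = C c := fun i => Homog.exists_const (by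
    have := g.homogeneous i
    rwa [hd] at this)
  choose c hc using hc
  have h0 := h 0
  have h1 := h 1
  rw [hc] at h0 h1
  rw [algHom_C] at h0 h1
  have e0 : aff (st^[n] (gen K 3 (FractionRing (MvPolynomial (Fin 3) K)))) 0 = 1 := rfl
  have e1 : aff (st^[n] (gen K 3 (FractionRing (MvPolynomial (Fin 3) K)))) 1 =
    st^[n] (gen K 3 _) 0 := rfl
  rw [e0, mul_one] at h0
  rw [e1, ← h0] at h1
  have hc0 : c 0 ≠ 0 := by
    rintro h2
    rw [h2, map_zero] at h0
    exact ht h0.symm
  have hι : Function.Injective (algebraMap (MvPolynomial (Fin 3) K)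
    (FractionRing (MvPolynomial (Fin 3) K))) := IsFractionRing.injective _ _
  have h3 : st^[n] (gen K 3 (FractionRing (MvPolynomial (Fin 3) K))) 0 =
      algebraMap (MvPolynomial (Fin 3) K) _ (C (c 1 / c 0)) := by
    have e2 : algebraMap (MvPolynomial (Fin 3) K) (FractionRing (MvPolynomial (Fin 3) K))
        (C (c 1 / c 0)) = algebraMap K _ (c 1 / c 0) := by
      rw [IsScalarTower.algebraMap_apply K (MvPolynomial (Fin 3) K)
        (FractionRing (MvPolynomial (Fin 3) K)), MvPolynomial.algebraMap_eq]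
    have hc0' : algebraMap K (FractionRing (MvPolynomial (Fin 3) K)) (c 0) ≠ 0 := by
      rw [h0]; exact ht
    rw [e2, map_div₀, h1, mul_div_cancel_left₀ _ hc0']
  have key : ∀ n₀ : ℕ, 1 ≤ n₀ → cb K (n₀ + n) 0 = c 1 / c 0 := by
    intro n₀ hn₀
    have h4 := (orbit hι hn₀ (evS_gen (cb K n₀)) n).1 0
    rw [h3] at h4
    rw [h4.unique hι]
    show aeval (cb K n₀) (C (c 1 / c 0)) = _
    rw [algHom_C]
    rfl
  have k1 := key 1 le_rfl
  have k2 := key 2 (by norm_num)
  rw [← k2] at k1
  have e3 : ∀ j : ℕ, cb K j 0 = 1 / ((2 * j + 1) / 2) ^ 2 := fun j => rfl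
  rw [e3, e3] at k1
  have ne : ∀ j : ℕ, ((2 * (j : K) + 1) / 2) ≠ 0 := fun j => by
    have : ((2 * j + 1 : ℕ) : K) ≠ 0 := by exact_mod_cast (by omega : 2 * j + 1 ≠ 0)
    push_cast at this
    exact div_ne_zero this two_ne_zero
  rw [div_eq_div_iff (pow_ne_zero _ (ne _)) (pow_ne_zero _ (ne _))] at k1
  have k3 : ((2 * (2 + n) + 1) ^ 2 : ℕ) = (2 * (1 + n) + 1) ^ 2 := by
    have : (((2 * (2 + n) + 1) ^ 2 : ℕ) : K) = (((2 * (1 + n) + 1) ^ 2 : ℕ) : K) := by
      push_cast at k1 ⊢
      linear_combination 4 * k1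
    exact_mod_cast this
  have k4 := Nat.pow_left_injective (by norm_num : 2 ≠ 0) k3
  omega

theorem lower {f : RatMap K 3} (hf : StepProp f) :
    ∃ D : ℕ, ∀ k n : ℕ, n + 1 = 2 ^ k → ∀ g, f.IsIterate n g → 16 ^ k ≤ D * g.degree + 4 := by
  classical
  set ι : Polynomial K →+* FractionRing (Polynomial K) := algebraMap _ _ with hιd
  have hι : Function.Injective ι := IsFractionRing.injective _ _
  obtain ⟨a, ha, hlow⟩ := exists_orbit hι
  obtain ⟨⟨b, hb⟩, hint⟩ := IsLocalization.exist_integer_multiples_of_finite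
    (nonZeroDivisors (Polynomial K)) a
  have hb0 : b ≠ 0 := nonZeroDivisors.ne_zero hb
  choose p hp using hint
  have hp' : ∀ i, ι (p i) = ι b * a i := by
    intro i
    rw [hιd, hp i]
    simp [Algebra.smul_def]
  let Q : Fin 4 → Polynomial K := Fin.cons b p
  set D := Finset.univ.sup fun i => (Q i).natDegree with hD
  have hQD : ∀ i, (Q i).natDegree ≤ D := fun i =>
    Finset.le_sup (f := fun i => (Q i).natDegree) (Finset.mem_univ i)
  refine ⟨D, fun k n hk g hg => ?_⟩
  obtain ⟨t, ht, h⟩ := iterate_pt hf hg ha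
  have hQ : (fun i => ι (Q i)) = fun i => ι b * aff a i := by
    funext i
    refine Fin.cases ?_ (fun j => ?_) i
    · simp [Q, aff]
    · simp only [Q, aff, Fin.cons_succ]
      exact hp' j
  have hev : ∀ i, ι (aeval Q (g.poly i)) = ι b ^ g.degree * (t * aff (st^[n] a) i) := by
    intro i
    have e1 : ι (aeval Q (g.poly i)) = aeval (fun i => ι (Q i)) (g.poly i) := by
      have : (IsScalarTower.toAlgHom K (Polynomial K) (FractionRing (Polynomial K)))
          (aeval Q (g.poly i)) = aeval (fun i => ι (Q i)) (g.poly i) := by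
        rw [MvPolynomial.comp_aeval_apply]
        rfl
      exact this
    rw [e1, hQ, aeval_smul_of_isHomogeneous (g.homogeneous i), h]
  have hdeg : ∀ i, (aeval Q (g.poly i)).natDegree ≤ D * g.degree := by
    intro i
    rw [aeval_def, eval₂_eq']
    refine Polynomial.natDegree_sum_le_of_forall_le _ _ fun s hs => ?_
    have h1 := g.homogeneous i (mem_support_iff.mp hs)
    have h2 : ∑ j, s j = g.degree := by
      have h3 : Finsupp.degree s = g.degree := by
        rw [← h1, Finsupp.degree_eq_weight_one]; rfl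
      rw [← h3, Finsupp.degree_eq_sum]
    refine Polynomial.natDegree_mul_le.trans ?_
    have h4 : (algebraMap K (Polynomial K) (coeff s (g.poly i))).natDegree = 0 :=
      Polynomial.natDegree_C _
    rw [h4, zero_add]
    refine (Polynomial.natDegree_prod_le _ _).trans ?_
    rw [← h2, Finset.mul_sum]
    refine Finset.sum_le_sum fun j _ => ?_
    refine Polynomial.natDegree_pow_le.trans ?_
    rw [mul_comm]
    exact Nat.mul_le_mul_right _ (hQD j)
  have hbι : ι b ≠ 0 := by rwa [map_ne_zero_iff ι hι]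
  have h0 := hev 0
  have h2 := hev 2
  have e0 : aff (st^[n] a) 0 = 1 := rfl
  have e2 : aff (st^[n] a) 2 = st^[n] a 1 := rfl
  rw [e0, mul_one] at h0
  rw [e2] at h2
  have hq0 : aeval Q (g.poly 0) ≠ 0 := by
    intro h3
    rw [h3, map_zero] at h0
    exact (mul_ne_zero (pow_ne_zero _ hbι) ht) h0.symm
  have := hlow k n hk (aeval Q (g.poly 2)) (aeval Q (g.poly 0)) hq0 (by rw [h0, h2]; ring)
  exact this.trans (Nat.add_le_add_right (hdeg 0) 4)

theorem dominant {f : RatMap K 3} (hf : StepProp f) : f.Dominant := by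
  unfold RatMap.Dominant
  rw [algebraicIndependent_iff]
  intro P hP
  let L := AlgebraicClosure (FractionRing (MvPolynomial (Fin 4) K))
  let T : Fin 4 → L := fun i => algebraMap (MvPolynomial (Fin 4) K) L (X i)
  have hinj : Function.Injective (algebraMap (MvPolynomial (Fin 4) K) L) := by
    have h1 : Function.Injective (algebraMap (MvPolynomial (Fin 4) K)
      (FractionRing (MvPolynomial (Fin 4) K))) := IsFractionRing.injective _ _
    have h2 : Function.Injective (algebraMap
      (FractionRing (MvPolynomial (Fin 4) K)) L) := RingHom.injective _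
    rw [IsScalarTower.algebraMap_eq (MvPolynomial (Fin 4) K)
      (FractionRing (MvPolynomial (Fin 4) K)) L]
    exact h2.comp h1
  have hTev : ∀ G : MvPolynomial (Fin 4) K, aeval T G = algebraMap _ L G := fun G => aeval_alg G
  have hT0 : T 0 ≠ 0 := fun h1 => X_ne_zero (R := K) (0 : Fin 4) (hinj (by
    rw [map_zero]; exact h1))
  let a : Fin 3 → L := fun i => T i.succ / T 0
  have hTa : T = fun i => T 0 * aff a i := by
    funext i
    refine Fin.cases ?_ (fun j => ?_) i
    · simp [aff]
    · simp only [aff, Fin.cons_succ, a]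
      exact (mul_div_cancel₀ _ hT0).symm
  have ha : Function.Injective (aeval a : MvPolynomial (Fin 3) K →ₐ[K] L) := by
    rw [injective_iff_map_eq_zero]
    intro p hp
    have h1 : aeval T (hom p.totalDegree p) = 0 := by
      rw [hTa, aeval_smul_of_isHomogeneous (hom_homog le_rfl), aeval_hom, hp, mul_zero]
    rw [hTev] at h1
    have h2 : hom p.totalDegree p = 0 := hinj (by rw [h1, map_zero])
    have h3 := aeval_hom p.totalDegree p (gen K 3 (FractionRing (MvPolynomial (Fin 3) K)))
    rw [h2, map_zero, aeval_gen] at h3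
    exact IsFractionRing.injective _ (FractionRing (MvPolynomial (Fin 3) K)) (by
      rw [← h3, map_zero])
  let ι : MvPolynomial (Fin 3) K →+* L := (aeval a : MvPolynomial (Fin 3) K →ₐ[K] L).toRingHom
  have hE : EvS ι (aeval (cb K 2) : MvPolynomial (Fin 3) K →ₐ[K] K).toRingHom a (cb K 2) := by
    intro i
    have := Ev.of (ι := ι) (π := (aeval (cb K 2) : MvPolynomial (Fin 3) K →ₐ[K] K).toRingHom)
      (X i)
    have e1 : ι (X i) = a i := aeval_X a i
    have e2 : (aeval (cb K 2) : MvPolynomial (Fin 3) K →ₐ[K] K).toRingHom (X i) = cb K 2 i :=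
      aeval_X _ i
    rwa [e1, e2] at this
  obtain ⟨b, -, hb, hba⟩ := exists_pre (ι := ι) ha hE
  obtain ⟨t, ht, h⟩ := hf L b hb
  rw [hba] at h
  have hd : f.degree ≠ 0 := by
    intro hd
    have hc : ∀ i, ∃ c : K, f.poly i = C c := fun i => Homog.exists_const (by
      have := f.homogeneous i
      rwa [hd] at this)
    choose c hc using hc
    have h0 := h 0
    have h1 := h 1
    rw [hc, algHom_C] at h0 h1
    have e0 : aff a 0 = 1 := rfl
    have e1 : aff a 1 = a 0 := rfl
    rw [e0, mul_one] at h0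
    rw [e1, ← h0] at h1
    have h2 : (C (c 0) * X 0 - C (c 1) : MvPolynomial (Fin 3) K) = 0 := ha (by
      rw [map_sub, map_mul, algHom_C, algHom_C, aeval_X, map_zero, ← h1, sub_self])
    have h3 : c 0 ≠ 0 := by
      intro h4
      rw [h4, map_zero] at h0
      exact ht h0.symm
    have h5 := congrArg (eval (fun _ => (0 : K))) h2
    have h6 := congrArg (eval (fun _ => (1 : K))) h2
    simp only [map_sub, map_mul, eval_C, eval_X, map_zero] at h5 h6
    exact h3 (by linear_combination h6 - h5)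
  obtain ⟨z, hz⟩ := IsAlgClosed.exists_pow_nat_eq (T 0 / t) (n := f.degree) (by omega)
  let pt : Fin 4 → L := fun i => z * aff b i
  have hpt : ∀ i, aeval pt (f.poly i) = T i := by
    intro i
    have e1 : aeval pt (f.poly i) = z ^ f.degree * aeval (aff b) (f.poly i) :=
      aeval_smul_of_isHomogeneous (f.homogeneous i) z (aff b)
    rw [e1, h, hz]
    have e2 := congrFun hTa i
    rw [e2, div_mul_eq_mul_div, div_eq_iff ht]
    ring
  have h1 : aeval pt (aeval f.poly P) = aeval T P := by
    rw [MvPolynomial.comp_aeval_apply]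
    have : (fun i => aeval pt (f.poly i)) = T := funext hpt
    rw [this]
  have h2 : aeval f.poly P = 0 := hP
  rw [h2, map_zero, hTev] at h1
  exact hinj (by rw [← h1, map_zero])

end Main

end Pool.Agent.X321.DG
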